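import Mathlib

set_option autoImplicit false

namespace Pool.Agent.H.MP_594704_gt

open Set Filter Topology MeasureTheory

theorem second_nonneg (W W' : ℝ → ℝ) (c : ℝ) (hW : ∀ᶠ h in 𝓝 (0:ℝ), HasDerivAt W (W' h) h)
    (h0 : W' 0 = 0) (hc : HasDerivAt W' c 0) (hW0 : W 0 = 0) (hpos : ∀ᶠ h in 𝓝 (0:ℝ), 0 ≤ W h) :
    0 ≤ c := by
  by_contra hneg
  push Not at hneg
  have h1 : Tendsto (fun t => t⁻¹ • (W' (0 + t) - W' 0)) (𝓝[>] 0) (𝓝 c) :=
    hc.tendsto_slope_zero_right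
  have h2 : ∀ᶠ t in 𝓝[>] (0:ℝ), t⁻¹ • (W' (0 + t) - W' 0) < 0 := h1.eventually (gt_mem_nhds hneg)
  rw [eventually_nhdsWithin_iff] at h2
  obtain ⟨ε, hε, hb⟩ := Metric.eventually_nhds_iff.1 (hW.and (hpos.and h2))
  have hd : ∀ t : ℝ, t ∈ Icc 0 (ε/2) → dist t 0 < ε := by
    intro t ht
    rw [Real.dist_eq, sub_zero, abs_of_nonneg ht.1]; linarith [ht.2]
  obtain ⟨ξ, hξ, hs⟩ := exists_hasDerivAt_eq_slope W W' (by linarith : (0:ℝ) < ε/2)
    (fun t ht => (hb (hd t ht)).1.continuousAt.continuousWithinAt)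
    (fun t ht => (hb (hd t ⟨ht.1.le, ht.2.le⟩)).1)
  have h3 := (hb (hd ξ ⟨hξ.1.le, hξ.2.le⟩)).2.2 hξ.1
  have h4 := (hb (hd (ε/2) ⟨by linarith, le_rfl⟩)).2.1
  rw [h0, zero_add, sub_zero, smul_eq_mul] at h3
  have h5 : 0 ≤ W' ξ := by
    rw [hs, hW0]; apply div_nonneg <;> linarith
  have := mul_nonneg (inv_nonneg.2 hξ.1.le) h5
  linarith

theorem line_deriv (f : ℝ × ℝ → ℝ) (hf : Differentiable ℝ f) (z w : ℝ × ℝ) (h : ℝ) :
    HasDerivAt (fun t : ℝ => f (z + t • w)) (fderiv ℝ f (z + h • w) w) h := by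
  have h1 : HasDerivAt (fun t : ℝ => z + t • w) w h := by
    simpa using ((hasDerivAt_id h).smul_const w).const_add z
  exact (hf (z + h • w)).hasFDerivAt.comp_hasDerivAt h h1

theorem first_order (f g : ℝ × ℝ → ℝ) (hf : Differentiable ℝ f) (hg : Differentiable ℝ g)
    (z v w : ℝ × ℝ) (r : ℝ) (hr : 0 < r)
    (H : ∀ h : ℝ, |h| < r → 0 ≤ f (z + h • v) - g (z + h • w) - f z + g z) :
    fderiv ℝ f z v = fderiv ℝ g z w := by
  have h1 := (line_deriv f hf z v 0).sub (line_deriv g hg z w 0)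
  have h2 : IsLocalMin (fun t : ℝ => f (z + t • v) - g (z + t • w)) 0 := by
    have : ∀ᶠ t in 𝓝 (0:ℝ), |t| < r := by
      have := Metric.ball_mem_nhds (0:ℝ) hr
      filter_upwards [this] with t ht
      simpa using ht
    filter_upwards [this] with t ht
    have := H t ht
    simp only [zero_smul, add_zero]
    linarith
  have h3 := h2.hasDerivAt_eq_zero h1
  simp only [zero_smul, add_zero] at h3
  linarith

theorem smooth_core (f1 f2 f3 : ℝ × ℝ → ℝ) (h1 : ContDiff ℝ 2 f1) (h2 : ContDiff ℝ 2 f2)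
    (h3 : ContDiff ℝ 2 f3) (u1 u2 u3 r α β h0 μ : ℝ) (hr : 0 < r) (hh0 : 0 < h0) (hμ : 0 < μ)
    (H12 : ∀ (z : ℝ × ℝ) (h : ℝ), ‖z‖ < r → |h| < r →
      0 ≤ f1 (z + h • (1, -u1)) - f2 (z + h • (1, -u2)) - f1 z + f2 z)
    (H23 : ∀ (z : ℝ × ℝ) (h : ℝ), ‖z‖ < r → |h| < r →
      0 ≤ f2 (z + h • (1, -u2)) - f3 (z + h • (1, -u3)) - f2 z + f3 z)
    (HW : ∀ (z : ℝ × ℝ) (h : ℝ), ‖z‖ < r → |h| < r →
      α * (f2 (z + h • (1, -u2)) - f3 (z + h • (1, -u3)) - f2 z + f3 z) ≤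
        β * (f1 (z + h • (1, -u1)) - f2 (z + h • (1, -u2)) - f1 z + f2 z))
    (Hin : ∀ h ∈ Icc 0 h0, ∀ m ∈ Icc 0 μ, ‖(h • (1, -u1) + m • (0, 1) : ℝ × ℝ)‖ < r)
    (Hs : f1 0 + f1 (h0 • (1, -u1) + μ • (0, 1)) < f1 (μ • (0, 1)) + f1 (h0 • (1, -u1))) :
    α * (u2 - u3) ≤ β * (u1 - u2) := by
  have d1 : Differentiable ℝ f1 := h1.differentiable (by norm_num)
  have d2 : Differentiable ℝ f2 := h2.differentiable (by norm_num)
  have d3 : Differentiable ℝ f3 := h3.differentiable (by norm_num)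
  set q : ℝ × ℝ → ℝ := fun z => fderiv ℝ f1 z (1, -u1) with hq
  have dq : Differentiable ℝ q := by
    have : ContDiff ℝ 1 (fderiv ℝ f1) := h1.fderiv_right (by norm_num)
    have h5 : Differentiable ℝ (fderiv ℝ f1) := this.differentiable (by norm_num)
    exact h5.clm_apply (differentiable_const _)
  have q2 : ∀ z : ℝ × ℝ, ‖z‖ < r → fderiv ℝ f2 z (1, -u2) = q z := fun z hz =>
    (first_order f1 f2 d1 d2 z _ _ r hr (fun h hh => H12 z h hz hh)).symm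
  have q3 : ∀ z : ℝ × ℝ, ‖z‖ < r → fderiv ℝ f3 z (1, -u3) = q z := fun z hz => by
    rw [← q2 z hz]
    exact (first_order f2 f3 d2 d3 z _ _ r hr (fun h hh => H23 z h hz hh)).symm
  have key : ∀ z : ℝ × ℝ, ‖z‖ < r →
      0 ≤ - fderiv ℝ q z (0, 1) * (β * (u1 - u2) - α * (u2 - u3)) := by
    intro z hz
    have ev : ∀ w : ℝ × ℝ, ∀ᶠ h in 𝓝 (0:ℝ), ‖z + h • w‖ < r := by
      intro w
      have hc : Continuous fun h : ℝ => ‖z + h • w‖ := by fun_prop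
      exact hc.continuousAt.eventually (gt_mem_nhds (by simpa using hz))
    have evh : ∀ᶠ t in 𝓝 (0:ℝ), |t| < r := by
      filter_upwards [Metric.ball_mem_nhds (0:ℝ) hr] with t ht
      simpa using ht
    have := second_nonneg
      (fun h => β * (f1 (z + h • (1, -u1)) - f2 (z + h • (1, -u2)) - f1 z + f2 z) -
        α * (f2 (z + h • (1, -u2)) - f3 (z + h • (1, -u3)) - f2 z + f3 z))
      (fun h => β * (q (z + h • (1, -u1)) - q (z + h • (1, -u2))) -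
        α * (q (z + h • (1, -u2)) - q (z + h • (1, -u3))))
      (β * (fderiv ℝ q z (1, -u1) - fderiv ℝ q z (1, -u2)) -
        α * (fderiv ℝ q z (1, -u2) - fderiv ℝ q z (1, -u3))) ?_ (by simp) ?_ (by simp) ?_
    · have e : ∀ u : ℝ, fderiv ℝ q z (1, -u) = fderiv ℝ q z (1, 0) - u * fderiv ℝ q z (0, 1) := by
        intro u
        have : ((1, -u) : ℝ × ℝ) = (1, 0) - u • (0, 1) := by simp
        rw [this, map_sub, map_smul, smul_eq_mul]
      rw [e u1, e u2, e u3] at this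
      linarith
    · filter_upwards [ev (1, -u2), ev (1, -u3)] with h e2 e3
      have a1 := line_deriv f1 d1 z (1, -u1) h
      have a2 := line_deriv f2 d2 z (1, -u2) h
      have a3 := line_deriv f3 d3 z (1, -u3) h
      rw [q2 _ e2] at a2
      rw [q3 _ e3] at a3
      exact ((((a1.sub a2).sub_const _).add_const _).const_mul β).sub
        ((((a2.sub a3).sub_const _).add_const _).const_mul α)
    · have a1 := line_deriv q dq z (1, -u1) 0
      have a2 := line_deriv q dq z (1, -u2) 0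
      have a3 := line_deriv q dq z (1, -u3) 0
      simp only [zero_smul, add_zero] at a1 a2 a3
      exact ((a1.sub a2).const_mul β).sub ((a2.sub a3).const_mul α)
    · filter_upwards [evh] with h hh
      have := HW z h hz hh
      linarith
  by_contra hcon
  push Not at hcon
  have hσ : ∀ z : ℝ × ℝ, ‖z‖ < r → 0 ≤ fderiv ℝ q z (0, 1) := by
    intro z hz
    have := key z hz
    by_contra hn
    push Not at hn
    nlinarith
  have hm : ∀ h ∈ Icc 0 h0, q (h • (1, -u1)) ≤ q (μ • (0, 1) + h • (1, -u1)) := by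
    intro h hh
    obtain ⟨ξ, hξ, hs⟩ := exists_hasDerivAt_eq_slope (fun t : ℝ => q (h • (1, -u1) + t • (0, 1)))
      (fun t => fderiv ℝ q (h • (1, -u1) + t • (0, 1)) (0, 1)) hμ
      (fun t _ => (line_deriv q dq _ _ t).continuousAt.continuousWithinAt)
      (fun t _ => line_deriv q dq _ _ t)
    have := hσ _ (Hin h hh ξ ⟨hξ.1.le, hξ.2.le⟩)
    rw [hs, sub_zero, le_div_iff₀ hμ] at this
    simp only [zero_smul, add_zero] at this
    rw [add_comm (μ • ((0, 1) : ℝ × ℝ))]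
    linarith
  obtain ⟨ξ, hξ, hs⟩ := exists_hasDerivAt_eq_slope
    (fun t : ℝ => f1 (μ • (0, 1) + t • (1, -u1)) - f1 (0 + t • (1, -u1)))
    (fun t => q (μ • (0, 1) + t • (1, -u1)) - q (0 + t • (1, -u1))) hh0
    (fun t _ => ((line_deriv f1 d1 _ _ t).sub
      (line_deriv f1 d1 _ _ t)).continuousAt.continuousWithinAt)
    (fun t _ => (line_deriv f1 d1 _ _ t).sub (line_deriv f1 d1 _ _ t))
  have := hm ξ ⟨hξ.1.le, hξ.2.le⟩
  simp only [zero_add, zero_smul, add_zero, sub_zero] at hs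
  have h7 : 0 ≤ (f1 (μ • (0, 1) + h0 • (1, -u1)) - f1 (h0 • (1, -u1)) -
      (f1 (μ • (0, 1)) - f1 0)) / h0 := by rw [← hs]; linarith
  rw [le_div_iff₀ hh0, add_comm (μ • ((0, 1) : ℝ × ℝ))] at h7
  linarith

/-- averaging operator -/
noncomputable def av (φ : ContDiffBump (0 : ℝ × ℝ)) (f : ℝ × ℝ → ℝ) (z : ℝ × ℝ) : ℝ :=
  ∫ ζ, φ ζ * f (z - ζ)

theorem av_smooth (φ : ContDiffBump (0 : ℝ × ℝ)) (f : ℝ × ℝ → ℝ) (hf : Continuous f) :
    ContDiff ℝ 2 (av φ f) :=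
  HasCompactSupport.contDiff_convolution_left (n := 2) (ContinuousLinearMap.mul ℝ ℝ)
    φ.hasCompactSupport φ.contDiff hf.locallyIntegrable

theorem av_int (φ : ContDiffBump (0 : ℝ × ℝ)) (f : ℝ × ℝ → ℝ) (hf : Continuous f) (z : ℝ × ℝ) :
    Integrable (fun ζ => φ ζ * f (z - ζ)) :=
  (φ.continuous.mul (hf.comp (continuous_const.sub continuous_id))).integrable_of_hasCompactSupport
    φ.hasCompactSupport.mul_right

theorem av_four (φ : ContDiffBump (0 : ℝ × ℝ)) (f g : ℝ × ℝ → ℝ) (hf : Continuous f)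
    (hg : Continuous g) (z v w : ℝ × ℝ) :
    av φ f (z + v) - av φ g (z + w) - av φ f z + av φ g z =
      av φ (fun y => f (y + v) - g (y + w) - f y + g y) z := by
  have i1 := av_int φ f hf (z + v)
  have i2 := av_int φ g hg (z + w)
  have i3 := av_int φ f hf z
  have i4 := av_int φ g hg z
  have e : av φ (fun y => f (y + v) - g (y + w) - f y + g y) z =
      ∫ ζ, (φ ζ * f (z + v - ζ) - φ ζ * g (z + w - ζ) - φ ζ * f (z - ζ) + φ ζ * g (z - ζ)) := by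
    unfold av
    congr 1
    funext ζ
    simp only [add_sub_right_comm]
    ring
  have j1 : Integrable (fun ζ => φ ζ * f (z + v - ζ) - φ ζ * g (z + w - ζ)) := i1.sub i2
  have j2 : Integrable (fun ζ => φ ζ * f (z + v - ζ) - φ ζ * g (z + w - ζ) -
    φ ζ * f (z - ζ)) := j1.sub i3
  rw [e, integral_add j2 i4, integral_sub j1 i3, integral_sub i1 i2]
  rfl

theorem av_nonneg (φ : ContDiffBump (0 : ℝ × ℝ)) (F : ℝ × ℝ → ℝ) (z : ℝ × ℝ)
    (h : ∀ ζ : ℝ × ℝ, ‖ζ‖ < φ.rOut → 0 ≤ F (z - ζ)) : 0 ≤ av φ F z := by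
  apply integral_nonneg
  intro ζ
  by_cases hz : ‖ζ‖ < φ.rOut
  · exact mul_nonneg φ.nonneg (h ζ hz)
  · have : φ ζ = 0 := φ.zero_of_le_dist (by simpa using hz)
    simp [this]

theorem av_pos (φ : ContDiffBump (0 : ℝ × ℝ)) (F : ℝ × ℝ → ℝ) (hF : Continuous F) (z : ℝ × ℝ)
    (h : ∀ ζ : ℝ × ℝ, ‖ζ‖ < φ.rOut → 0 < F (z - ζ)) : 0 < av φ F z := by
  refine integral_pos_of_integrable_nonneg_nonzero (x := 0)
    (φ.continuous.mul (hF.comp (continuous_const.sub continuous_id))) (av_int φ F hF z) ?_ ?_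
  · intro ζ
    by_cases hz : ‖ζ‖ < φ.rOut
    · exact mul_nonneg φ.nonneg (h ζ hz).le
    · have : φ ζ = 0 := φ.zero_of_le_dist (by simpa using hz)
      simp [this]
  · have h1 : φ 0 = 1 := φ.one_of_mem_closedBall (by simpa using φ.rIn_pos.le)
    have h2 := h 0 (by simpa using φ.rOut_pos)
    simp only [h1, one_mul]
    exact h2.ne'

theorem av_lin (φ : ContDiffBump (0 : ℝ × ℝ)) (F G : ℝ × ℝ → ℝ) (hF : Continuous F)
    (hG : Continuous G) (α β : ℝ) (z : ℝ × ℝ) :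
    β * av φ F z - α * av φ G z = av φ (fun y => β * F y - α * G y) z := by
  unfold av
  rw [← integral_const_mul, ← integral_const_mul,
    ← integral_sub ((av_int φ F hF z).const_mul β) ((av_int φ G hG z).const_mul α)]
  congr 1
  funext ζ
  ring

theorem cont_core (f1 f2 f3 : ℝ × ℝ → ℝ) (h1 : Continuous f1) (h2 : Continuous f2)
    (h3 : Continuous f3) (u1 u2 u3 r α β h0 μ : ℝ) (hr : 0 < r) (hh0 : 0 < h0) (hμ : 0 < μ)
    (H12 : ∀ (z : ℝ × ℝ) (h : ℝ), ‖z‖ < 2 * r → |h| < r →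
      0 ≤ f1 (z + h • (1, -u1)) - f2 (z + h • (1, -u2)) - f1 z + f2 z)
    (H23 : ∀ (z : ℝ × ℝ) (h : ℝ), ‖z‖ < 2 * r → |h| < r →
      0 ≤ f2 (z + h • (1, -u2)) - f3 (z + h • (1, -u3)) - f2 z + f3 z)
    (HW : ∀ (z : ℝ × ℝ) (h : ℝ), ‖z‖ < 2 * r → |h| < r →
      α * (f2 (z + h • (1, -u2)) - f3 (z + h • (1, -u3)) - f2 z + f3 z) ≤
        β * (f1 (z + h • (1, -u1)) - f2 (z + h • (1, -u2)) - f1 z + f2 z))
    (Hin : ∀ h ∈ Icc 0 h0, ∀ m ∈ Icc 0 μ, ‖(h • (1, -u1) + m • (0, 1) : ℝ × ℝ)‖ < r)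
    (Hs : ∀ z : ℝ × ℝ, ‖z‖ < r → f1 z + f1 (z + (h0 • (1, -u1) + μ • (0, 1))) <
      f1 (z + μ • (0, 1)) + f1 (z + h0 • (1, -u1))) :
    α * (u2 - u3) ≤ β * (u1 - u2) := by
  let φ : ContDiffBump (0 : ℝ × ℝ) := ⟨r / 2, r, by linarith, by linarith⟩
  have nb : ∀ z ζ : ℝ × ℝ, ‖z‖ < r → ‖ζ‖ < φ.rOut → ‖z - ζ‖ < 2 * r := by
    intro z ζ hz hζ
    have : ‖ζ‖ < r := hζ
    linarith [norm_sub_le z ζ]
  refine smooth_core (av φ f1) (av φ f2) (av φ f3) (av_smooth φ f1 h1) (av_smooth φ f2 h2)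
    (av_smooth φ f3 h3) u1 u2 u3 r α β h0 μ hr hh0 hμ ?_ ?_ ?_ Hin ?_
  · intro z h hz hh
    rw [av_four φ f1 f2 h1 h2]
    exact av_nonneg φ _ z fun ζ hζ => H12 _ h (nb z ζ hz hζ) hh
  · intro z h hz hh
    rw [av_four φ f2 f3 h2 h3]
    exact av_nonneg φ _ z fun ζ hζ => H23 _ h (nb z ζ hz hζ) hh
  · intro z h hz hh
    rw [av_four φ f2 f3 h2 h3, av_four φ f1 f2 h1 h2, ← sub_nonneg,
      av_lin φ _ _ (by fun_prop) (by fun_prop)]
    exact av_nonneg φ _ z fun ζ hζ => sub_nonneg.2 (HW _ h (nb z ζ hz hζ) hh)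
  · have e1 := av_four φ f1 f1 h1 h1 0 (μ • (0, 1)) (h0 • (1, -u1) + μ • (0, 1))
    have e2 := av_four φ f1 f1 h1 h1 0 (h0 • (1, -u1)) 0
    have e3 := av_lin φ
      (fun y => f1 (y + μ • (0, 1)) - f1 (y + (h0 • (1, -u1) + μ • (0, 1))) - f1 y + f1 y)
      (fun y => f1 (y + h0 • (1, -u1)) - f1 (y + 0) - f1 y + f1 y) (by fun_prop) (by fun_prop)
      (-1) 1 0
    have e4 := av_pos φ (fun y => 1 *
      (f1 (y + μ • (0, 1)) - f1 (y + (h0 • (1, -u1) + μ • (0, 1))) - f1 y + f1 y) - (-1) *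
      (f1 (y + h0 • (1, -u1)) - f1 (y + 0) - f1 y + f1 y)) (by fun_prop) 0 (fun ζ hζ => by
        have := Hs (0 - ζ) (by simpa using hζ)
        simp only [add_zero]
        linarith)
    rw [← e3, ← e1, ← e2] at e4
    simp only [zero_add, add_zero] at e4
    linarith

end Pool.Agent.H.MP_594704_gt
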