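import Pool.Agent.H.MP_594704_gt.A

set_option autoImplicit false

namespace Pool.Agent.H.MP_594704_gt

open Set Filter Topology

structure PM {E : Type*} [NormedAddCommGroup E] [NormedSpace ℝ E] (M : Set E)
    (d : E → E → ℝ) : Prop where
  op : IsOpen M
  cv : Convex ℝ M
  refl : ∀ x ∈ M, d x x = 0
  symm : ∀ x ∈ M, ∀ y ∈ M, d x y = d y x
  sep : ∀ x ∈ M, ∀ y ∈ M, d x y = 0 → x = y
  tri : ∀ x ∈ M, ∀ y ∈ M, ∀ z ∈ M, d x z ≤ d x y + d y z
  cont : ContinuousOn (fun p : E × E => d p.1 p.2) (M ×ˢ M)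
  seg : ∀ x ∈ M, ∀ y ∈ M, ∀ z ∈ M, (d x y + d y z = d x z ↔ y ∈ segment ℝ x z)
  ray : ∀ p ∈ M, ∀ v : E, v ≠ 0 → ∀ r : ℝ, 0 < r → ∃ t : ℝ, 0 < t ∧ p + t • v ∈ M ∧
    d p (p + t • v) = r
  pto : ∀ x ∈ M, ∀ y ∈ M, ∀ z ∈ M, ∀ w ∈ M, d x z * d y w ≤ d x y * d z w + d y z * d w x

variable {E : Type*} [NormedAddCommGroup E] [NormedSpace ℝ E] {M : Set E} {d : E → E → ℝ}

theorem PM.nonneg (h : PM M d) {x y : E} (hx : x ∈ M) (hy : y ∈ M) : 0 ≤ d x y := by
  have h1 := h.tri x hx y hy x hx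
  rw [h.refl x hx, h.symm y hy x hx] at h1
  linarith

theorem PM.pos (h : PM M d) {x y : E} (hx : x ∈ M) (hy : y ∈ M) (hxy : x ≠ y) : 0 < d x y :=
  lt_of_le_of_ne (h.nonneg hx hy) fun e => hxy (h.sep x hx y hy e.symm)

theorem PM.tendsto (h : PM M d) {ι : Type*} {l : Filter ι} {f g : ι → E} {x y : E} (hx : x ∈ M)
    (hy : y ∈ M) (hf : Tendsto f l (𝓝 x)) (hg : Tendsto g l (𝓝 y)) :
    Tendsto (fun i => d (f i) (g i)) l (𝓝 (d x y)) := by
  have : ContinuousAt (fun p : E × E => d p.1 p.2) (x, y) :=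
    h.cont.continuousAt ((h.op.prod h.op).mem_nhds ⟨hx, hy⟩)
  exact this.tendsto.comp (hf.prodMk_nhds hg)

theorem PM.ev (h : PM M d) {ι : Type*} {l : Filter ι} {f : ι → E} {x : E} (hx : x ∈ M)
    (hf : Tendsto f l (𝓝 x)) : ∀ᶠ i in l, f i ∈ M := hf.eventually (h.op.mem_nhds hx)

theorem seg_line (x v : E) {p q r : ℝ} (hpq : p ≤ q) (hqr : q ≤ r) :
    x + q • v ∈ segment ℝ (x + p • v) (x + r • v) := by
  rcases eq_or_lt_of_le (hpq.trans hqr) with e | hlt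
  · have : q = p := le_antisymm (e ▸ hqr) hpq
    rw [this]; exact left_mem_segment ℝ _ _
  · have hd : 0 < r - p := by linarith
    refine ⟨(r - q) / (r - p), (q - p) / (r - p), div_nonneg (by linarith) hd.le,
      div_nonneg (by linarith) hd.le, by field_simp; ring, ?_⟩
    have e1 : (r - q) / (r - p) + (q - p) / (r - p) = 1 := by field_simp; ring
    have e2 : (r - q) / (r - p) * p + (q - p) / (r - p) * r = q := by field_simp; ring
    calc ((r - q) / (r - p)) • (x + p • v) + ((q - p) / (r - p)) • (x + r • v)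
        = ((r - q) / (r - p) + (q - p) / (r - p)) • x +
          ((r - q) / (r - p) * p + (q - p) / (r - p) * r) • v := by module
      _ = x + q • v := by rw [e1, e2, one_smul]

theorem PM.mem_line (h : PM M d) {x v : E} {p q r : ℝ} (hp : x + p • v ∈ M) (hr : x + r • v ∈ M)
    (hpq : p ≤ q) (hqr : q ≤ r) : x + q • v ∈ M :=
  h.cv.segment_subset hp hr (seg_line x v hpq hqr)

theorem PM.add_line (h : PM M d) {x v : E} {p q r : ℝ} (hp : x + p • v ∈ M) (hr : x + r • v ∈ M)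
    (hpq : p ≤ q) (hqr : q ≤ r) :
    d (x + p • v) (x + q • v) + d (x + q • v) (x + r • v) = d (x + p • v) (x + r • v) :=
  (h.seg _ hp _ (h.mem_line hp hr hpq hqr) _ hr).2 (seg_line x v hpq hqr)

def emb (o v w : E) (z : ℝ × ℝ) : E := o + z.1 • v + z.2 • w

def Ind (v w : E) : Prop := ∀ a b : ℝ, a • v + b • w = 0 → a = 0 ∧ b = 0

theorem emb_inj (o : E) {v w : E} (hi : Ind v w) {a b : ℝ × ℝ} (e : emb o v w a = emb o v w b) :
    a = b := by
  have : (a.1 - b.1) • v + (a.2 - b.2) • w = 0 := by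
    have e2 : emb o v w a - emb o v w b = (a.1 - b.1) • v + (a.2 - b.2) • w := by
      unfold emb; module
    rw [← e2, e, sub_self]
  obtain ⟨h1, h2⟩ := hi _ _ this
  ext <;> linarith

theorem emb_comb (o v w : E) (x z : ℝ × ℝ) {a b : ℝ} (hab : a + b = 1) :
    emb o v w (a • x + b • z) = a • emb o v w x + b • emb o v w z := by
  have : b = 1 - a := by linarith
  subst this
  simp only [emb, Prod.fst_add, Prod.snd_add, Prod.smul_fst, Prod.smul_snd, smul_eq_mul]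
  module

theorem emb_line (o v w : E) (x u : ℝ × ℝ) (t : ℝ) :
    emb o v w (x + t • u) = emb o v w x + t • (u.1 • v + u.2 • w) := by
  simp only [emb, Prod.fst_add, Prod.snd_add, Prod.smul_fst, Prod.smul_snd, smul_eq_mul]
  module

theorem emb_cont (o v w : E) : Continuous (emb o v w) := by unfold emb; fun_prop

theorem PM.pull (h : PM M d) (o : E) {v w : E} (hi : Ind v w) :
    PM (emb o v w ⁻¹' M) (fun a b => d (emb o v w a) (emb o v w b)) where
  op := h.op.preimage (emb_cont o v w)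
  cv := by
    intro x hx z hz a b ha hb hab
    show emb o v w (a • x + b • z) ∈ M
    rw [emb_comb o v w x z hab]
    exact h.cv hx hz ha hb hab
  refl := fun x hx => h.refl _ hx
  symm := fun x hx y hy => h.symm _ hx _ hy
  sep := fun x hx y hy e => emb_inj o hi (h.sep _ hx _ hy e)
  tri := fun x hx y hy z hz => h.tri _ hx _ hy _ hz
  cont := by
    have hc : Continuous fun p : (ℝ × ℝ) × (ℝ × ℝ) => (emb o v w p.1, emb o v w p.2) :=
      ((emb_cont o v w).comp continuous_fst).prodMk ((emb_cont o v w).comp continuous_snd)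
    exact h.cont.comp hc.continuousOn fun p hp => hp
  seg := by
    intro x hx y hy z hz
    rw [h.seg _ hx _ hy _ hz]
    constructor
    · rintro ⟨a, b, ha, hb, hab, e⟩
      rw [← emb_comb o v w x z hab] at e
      exact ⟨a, b, ha, hb, hab, emb_inj o hi e⟩
    · rintro ⟨a, b, ha, hb, hab, e⟩
      exact ⟨a, b, ha, hb, hab, by rw [← emb_comb o v w x z hab, e]⟩
  ray := by
    intro p hp u hu r hr
    have : u.1 • v + u.2 • w ≠ 0 := fun e => hu (Prod.ext (hi _ _ e).1 (hi _ _ e).2)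
    obtain ⟨t, ht, h1, h2⟩ := h.ray _ hp _ this r hr
    refine ⟨t, ht, ?_, ?_⟩
    · show emb o v w (p + t • u) ∈ M
      rwa [emb_line]
    · show d _ (emb o v w (p + t • u)) = r
      rwa [emb_line]
  pto := fun x hx y hy z hz _ hw => h.pto _ hx _ hy _ hz _ hw

def pt (z : ℝ × ℝ) (t : ℝ) : ℝ × ℝ := (t, z.1 + z.2 * t)

theorem pt_eq (z : ℝ × ℝ) (t : ℝ) : pt z t = (0, z.1) + t • (1, z.2) := by
  ext <;> simp [pt, mul_comm]

noncomputable def cl (ρ : ℝ) (z : ℝ × ℝ) : ℝ × ℝ := (max (-ρ) (min ρ z.1), max (-ρ) (min ρ z.2))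

theorem cl_cont (ρ : ℝ) : Continuous (cl ρ) := by unfold cl; fun_prop

theorem cl_norm {ρ : ℝ} (hρ : 0 ≤ ρ) (z : ℝ × ℝ) : ‖cl ρ z‖ ≤ ρ := by
  have : ∀ t : ℝ, ‖max (-ρ) (min ρ t)‖ ≤ ρ := fun t => by
    rw [Real.norm_eq_abs, abs_le]
    exact ⟨le_max_left _ _, max_le (by linarith) (min_le_left _ _)⟩
  rw [Prod.norm_def]
  exact max_le (this _) (this _)

theorem cl_eq {ρ : ℝ} {z : ℝ × ℝ} (hz : ‖z‖ ≤ ρ) : cl ρ z = z := by
  have h1 : |z.1| ≤ ρ := (norm_fst_le z).trans hz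
  have h2 : |z.2| ≤ ρ := (norm_snd_le z).trans hz
  rw [abs_le] at h1 h2
  ext
  · simp [cl, min_eq_right h1.2, max_eq_right h1.1]
  · simp [cl, min_eq_right h2.2, max_eq_right h2.1]

theorem norm_dir {u U h : ℝ} (hu : 0 ≤ u) (hU : u ≤ U) :
    ‖(h • (1, -u) : ℝ × ℝ)‖ ≤ |h| * (1 + U) := by
  rw [norm_smul, Real.norm_eq_abs]
  refine mul_le_mul_of_nonneg_left ?_ (abs_nonneg h)
  rw [Prod.norm_def]
  refine max_le (by simp; linarith) ?_
  simp only [norm_neg, Real.norm_eq_abs, abs_of_nonneg hu]; linarith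

theorem horiz_eta {M : Set (ℝ × ℝ)} {d : ℝ × ℝ → ℝ × ℝ → ℝ} (h : PM M d) {b c e : ℝ} (hb : 0 < b)
    (hbc : b < c) (hce : c < e) (h0 : pt 0 0 ∈ M) (he : pt 0 e ∈ M) {η : ℝ} (hη : 0 < η) :
    (d (pt 0 b) (pt 0 c) - η) * (c⁻¹ - e⁻¹) ≤ (d (pt 0 c) (pt 0 e) + η) * (b⁻¹ - c⁻¹) := by
  have hc : 0 < c := by linarith
  have he0 : 0 < e := by linarith
  have ml : ∀ z : ℝ × ℝ, pt z 0 ∈ M → pt z e ∈ M → ∀ t, 0 ≤ t → t ≤ e → pt z t ∈ M := by
    intro z a1 a2 t t1 t2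
    rw [pt_eq] at a1 a2 ⊢
    exact h.mem_line a1 a2 t1 t2
  have al : ∀ z : ℝ × ℝ, pt z 0 ∈ M → pt z e ∈ M → ∀ p q r, 0 ≤ p → p ≤ q → q ≤ r → r ≤ e →
      d (pt z p) (pt z q) + d (pt z q) (pt z r) = d (pt z p) (pt z r) := by
    intro z a1 a2 p q r t1 t2 t3 t4
    have m1 := ml z a1 a2 p t1 (by linarith)
    have m2 := ml z a1 a2 r (by linarith) t4
    simp only [pt_eq] at m1 m2 ⊢
    exact h.add_line m1 m2 t2 t3
  have tp : ∀ t : ℝ, Tendsto (fun z => pt z t) (𝓝 0) (𝓝 (pt 0 t)) := fun t => by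
    have : Continuous fun z => pt z t := by unfold pt; fun_prop
    exact this.tendsto 0
  have hbM := ml 0 h0 he b hb.le (by linarith)
  have hcM := ml 0 h0 he c hc.le (by linarith)
  have ev := (h.ev h0 (tp 0)).and ((h.ev he (tp e)).and
    (((h.tendsto hbM hcM (tp b) (tp c)).eventually
      (lt_mem_nhds (by linarith : d (pt 0 b) (pt 0 c) - η < d (pt 0 b) (pt 0 c)))).and
    ((h.tendsto hcM he (tp c) (tp e)).eventually
      (gt_mem_nhds (by linarith : d (pt 0 c) (pt 0 e) < d (pt 0 c) (pt 0 e) + η)))))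
  obtain ⟨ε, hε, hG⟩ := Metric.eventually_nhds_iff.1 ev
  set ρ := ε / 2 with hρ
  have hρ0 : 0 < ρ := by linarith
  have G : ∀ z : ℝ × ℝ, ‖z‖ ≤ ρ → pt z 0 ∈ M ∧ pt z e ∈ M ∧
      d (pt 0 b) (pt 0 c) - η < d (pt z b) (pt z c) ∧
      d (pt z c) (pt z e) < d (pt 0 c) (pt 0 e) + η := fun z hz =>
    hG (by rw [dist_zero_right]; linarith)
  let f : ℝ → ℝ × ℝ → ℝ := fun X z => d (pt (cl ρ z) 0) (pt (cl ρ z) X)
  have fc : ∀ X, 0 ≤ X → X ≤ e → Continuous (f X) := by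
    intro X t1 t2
    have hc : Continuous fun z : ℝ × ℝ => (pt (cl ρ z) 0, pt (cl ρ z) X) := by
      have := cl_cont ρ
      unfold pt; fun_prop
    exact h.cont.comp_continuous hc fun z =>
      ⟨(G _ (cl_norm hρ0.le z)).1, ml _ (G _ (cl_norm hρ0.le z)).1 (G _ (cl_norm hρ0.le z)).2.1
        X t1 t2⟩
  have fe : ∀ X (z : ℝ × ℝ), ‖z‖ ≤ ρ → f X z = d (pt z 0) (pt z X) := by
    intro X z hz
    simp only [f, cl_eq hz]
  set U := b⁻¹ with hU
  have hU0 : 0 < U := inv_pos.2 hb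
  set r := ρ / (3 + U) with hr
  have hr0 : 0 < r := by positivity
  have hrρ : r * (3 + U) = ρ := by rw [hr]; field_simp
  have sh : ∀ X, b ≤ X → ∀ (z : ℝ × ℝ) (t : ℝ), ‖z‖ < 2 * r → |t| < r →
      ‖z‖ ≤ ρ ∧ (0, z.1 + t) ∈ M ∧ f X (z + t • (1, -X⁻¹)) = d (0, z.1 + t) (pt z X) := by
    intro X hX z t hz ht
    have hX0 : 0 < X := by linarith
    have n1 := norm_dir (h := t) (inv_pos.2 hX0).le (inv_anti₀ hb hX)
    have n2 : ‖z + t • (1, -X⁻¹)‖ ≤ ρ := by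
      have := norm_add_le z (t • (1, -X⁻¹))
      nlinarith
    have e1 : pt (z + t • (1, -X⁻¹)) 0 = (0, z.1 + t) := by ext <;> simp [pt]
    have e2 : pt (z + t • (1, -X⁻¹)) X = pt z X := by
      ext
      · simp [pt]
      · simp [pt]; field_simp; ring
    refine ⟨by nlinarith, e1 ▸ (G _ n2).1, ?_⟩
    rw [fe X _ n2, e1, e2]
  have T : ∀ X Y, b ≤ X → X ≤ Y → Y ≤ e → ∀ (z : ℝ × ℝ) (t : ℝ), ‖z‖ < 2 * r → |t| < r →
      f X (z + t • (1, -X⁻¹)) - f Y (z + t • (1, -Y⁻¹)) - f X z + f Y z =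
        d (0, z.1 + t) (pt z X) - d (0, z.1 + t) (pt z Y) + d (pt z X) (pt z Y) := by
    intro X Y a1 a2 a3 z t hz ht
    obtain ⟨n1, -, s1⟩ := sh X a1 z t hz ht
    obtain ⟨-, -, s2⟩ := sh Y (a1.trans a2) z t hz ht
    rw [s1, s2, fe X z n1, fe Y z n1,
      ← al z (G z n1).1 (G z n1).2.1 0 X Y le_rfl (by linarith) a2 a3]
    ring
  have T0 : ∀ X Y, b ≤ X → X ≤ Y → Y ≤ e → ∀ (z : ℝ × ℝ) (t : ℝ), ‖z‖ < 2 * r → |t| < r →
      0 ≤ d (0, z.1 + t) (pt z X) - d (0, z.1 + t) (pt z Y) + d (pt z X) (pt z Y) := by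
    intro X Y a1 a2 a3 z t hz ht
    obtain ⟨n1, m1, -⟩ := sh X a1 z t hz ht
    have := h.tri _ m1 _ (ml z (G z n1).1 (G z n1).2.1 X (by linarith) (by linarith)) _
      (ml z (G z n1).1 (G z n1).2.1 Y (by linarith) a3)
    linarith
  set h0' := r / (2 * (1 + 2 * U)) with hh0
  have hh00 : 0 < h0' := by positivity
  have hh01 : h0' * (1 + 2 * U) = r / 2 := by rw [hh0]; field_simp
  refine cont_core (f b) (f c) (f e) (fc b hb.le (by linarith)) (fc c hc.le hce.le)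
    (fc e he0.le le_rfl) b⁻¹ c⁻¹ e⁻¹ r _ _ h0' (h0' * U) hr0 hh00 (by positivity) ?_ ?_ ?_ ?_ ?_
  · intro z t hz ht
    rw [T b c le_rfl hbc.le hce.le z t hz ht]
    exact T0 b c le_rfl hbc.le hce.le z t hz ht
  · intro z t hz ht
    rw [T c e hbc.le hce.le le_rfl z t hz ht]
    exact T0 c e hbc.le hce.le le_rfl z t hz ht
  · intro z t hz ht
    rw [T b c le_rfl hbc.le hce.le z t hz ht, T c e hbc.le hce.le le_rfl z t hz ht]
    have t1 := T0 b c le_rfl hbc.le hce.le z t hz ht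
    have t2 := T0 c e hbc.le hce.le le_rfl z t hz ht
    obtain ⟨n1, m1, -⟩ := sh b le_rfl z t hz ht
    obtain ⟨g1, g2, g3, g4⟩ := G z n1
    have mb := ml z g1 g2 b hb.le (by linarith)
    have mc := ml z g1 g2 c hc.le hce.le
    have p := h.pto _ m1 _ mb _ mc _ g2
    rw [← al z g1 g2 b c e hb.le hbc.le hce.le le_rfl, h.symm _ g2 _ m1] at p
    nlinarith [mul_le_mul_of_nonneg_right g3.le t2, mul_le_mul_of_nonneg_right g4.le t1]
  · intro t ht m hm
    have n1 := norm_dir (h := t) hU0.le le_rfl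
    have n2 : ‖(m • (0, 1) : ℝ × ℝ)‖ ≤ h0' * U := by
      rw [norm_smul, Real.norm_eq_abs, abs_of_nonneg hm.1]
      simpa [Prod.norm_def] using hm.2
    have n3 := norm_add_le (t • (1, -U) : ℝ × ℝ) (m • (0, 1))
    rw [abs_of_nonneg ht.1] at n1
    nlinarith [ht.2]
  · intro z hz
    have hh : |h0'| < r := by rw [abs_of_pos hh00]; nlinarith
    have n2 : ‖((h0' * U) • (0, 1) : ℝ × ℝ)‖ ≤ h0' * U := by
      rw [norm_smul, Real.norm_eq_abs, abs_of_pos (by positivity)]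
      simp [Prod.norm_def]
    have hz2 : ‖z + (h0' * U) • ((0, 1) : ℝ × ℝ)‖ < 2 * r := by
      have := norm_add_le z ((h0' * U) • ((0, 1) : ℝ × ℝ))
      nlinarith
    obtain ⟨n1, m1, s1⟩ := sh b le_rfl z h0' (by linarith) hh
    obtain ⟨n3, -, s2⟩ := sh b le_rfl _ h0' hz2 hh
    rw [add_comm (h0' • ((1, -b⁻¹) : ℝ × ℝ)), ← add_assoc, s1, s2, fe b z n1, fe b _ n3]
    have mA := (G z n1).1
    have mB := ml z (G z n1).1 (G z n1).2.1 b hb.le (by linarith)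
    have mB1 := ml _ (G _ n3).1 (G _ n3).2.1 b hb.le (by linarith)
    have e1 : pt (z + (h0' * U) • ((0, 1) : ℝ × ℝ)) 0 = pt z 0 := by ext <;> simp [pt]
    have e2 : (z + (h0' * U) • ((0, 1) : ℝ × ℝ)).1 = z.1 := by simp
    rw [e1, e2]
    set A0 := pt z 0 with hA0
    set B0 := pt z b with hB0
    set B1 := pt (z + (h0' * U) • ((0, 1) : ℝ × ℝ)) b with hB1
    set A1 : ℝ × ℝ := (0, z.1 + h0') with hA1
    set O : ℝ × ℝ := (b / 2, z.1 + z.2 * b / 2 + h0' / 2) with hO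
    have s01 : O ∈ segment ℝ A0 B1 := by
      refine ⟨1 / 2, 1 / 2, by norm_num, by norm_num, by norm_num, ?_⟩
      ext
      · simp [hA0, hB1, hO, pt]; ring
      · simp [hA0, hB1, hO, pt, hU]; field_simp; ring
    have s10 : O ∈ segment ℝ A1 B0 := by
      refine ⟨1 / 2, 1 / 2, by norm_num, by norm_num, by norm_num, ?_⟩
      ext
      · simp [hA1, hB0, hO, pt]; ring
      · simp [hA1, hB0, hO, pt]; ring
    have mO : O ∈ M := h.cv.segment_subset m1 mB s10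
    have ns : O ∉ segment ℝ A0 B0 := by
      rintro ⟨p, q, -, -, hpq, e⟩
      have e1 := congrArg Prod.fst e
      have e2 := congrArg Prod.snd e
      simp [hA0, hB0, hO, pt] at e1 e2
      have hq : q = 1 / 2 := by
        have : (q - 1 / 2) * b = 0 := by linarith
        rcases mul_eq_zero.1 this with a | a
        · linarith
        · exact absurd a hb.ne'
      have hp : p = 1 / 2 := by linarith
      rw [hp, hq] at e2
      linarith
    have a1 := (h.seg _ mA _ mO _ mB1).2 s01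
    have a2 := (h.seg _ m1 _ mO _ mB).2 s10
    have a3 := h.tri _ m1 _ mO _ mB1
    have a4 := lt_of_le_of_ne (h.tri _ mA _ mO _ mB) fun e => ns ((h.seg _ mA _ mO _ mB).1 e.symm)
    linarith

theorem horiz {M : Set (ℝ × ℝ)} {d : ℝ × ℝ → ℝ × ℝ → ℝ} (h : PM M d) {b c e : ℝ} (hb : 0 < b)
    (hbc : b < c) (hce : c < e) (h0 : pt 0 0 ∈ M) (he : pt 0 e ∈ M) :
    d (pt 0 b) (pt 0 c) * b * (e - c) ≤ d (pt 0 c) (pt 0 e) * e * (c - b) := by
  have hc : 0 < c := by linarith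
  have he0 : 0 < e := by linarith
  have k : d (pt 0 b) (pt 0 c) * (c⁻¹ - e⁻¹) ≤ d (pt 0 c) (pt 0 e) * (b⁻¹ - c⁻¹) := by
    apply le_of_forall_pos_le_add
    intro η hη
    have := horiz_eta h hb hbc hce h0 he (η := η * b) (by positivity)
    have e1 : η * b * b⁻¹ = η := by field_simp
    have e2 : 0 < η * b * e⁻¹ := by positivity
    nlinarith
  have e1 : c⁻¹ - e⁻¹ = (b * (e - c)) / (b * c * e) := by field_simp
  have e2 : b⁻¹ - c⁻¹ = (e * (c - b)) / (b * c * e) := by field_simp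
  rw [e1, e2, ← mul_div_assoc, ← mul_div_assoc, div_le_div_iff_of_pos_right (by positivity)] at k
  linarith

theorem PM.pconv (h : PM M d) {A v w : E} (hi : Ind v w) {b c e : ℝ} (hb : 0 < b)
    (hbc : b < c) (hce : c < e) (h0 : A ∈ M) (he : A + e • v ∈ M) :
    d (A + b • v) (A + c • v) * b * (e - c) ≤ d (A + c • v) (A + e • v) * e * (c - b) := by
  have e1 : ∀ t : ℝ, emb A v w (pt 0 t) = A + t • v := fun t => by simp [emb, pt]
  have := horiz (h.pull A hi) hb hbc hce (by show emb A v w (pt 0 0) ∈ M; simpa [e1] using h0)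
    (by show emb A v w (pt 0 e) ∈ M; rwa [e1])
  simpa only [e1] using this

end Pool.Agent.H.MP_594704_gt
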