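import Pool.Agent.H.MP_594704_gt.B

set_option autoImplicit false

namespace Pool.Agent.H.MP_594704_gt

open Set Filter Topology

variable {E : Type*} [NormedAddCommGroup E] [NormedSpace ℝ E] {M : Set E} {d : E → E → ℝ}

def Dim2 (E : Type*) [NormedAddCommGroup E] [NormedSpace ℝ E] : Prop :=
  ∀ v : E, v ≠ 0 → ∃ w, Ind v w

noncomputable def rr (d : E → E → ℝ) (y w : E) (ε : ℝ) : ℝ := d y (y + ε • w) / ε

noncomputable def N (d : E → E → ℝ) (x w : E) : ℝ := limUnder (𝓝[>] (0:ℝ)) (rr d x w)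

theorem PM.mid (h : PM M d) {y w : E} {R : ℝ} (h1 : y + (-R) • w ∈ M) (h2 : y + R • w ∈ M)
    {t : ℝ} (a : -R ≤ t) (b : t ≤ R) : y + t • w ∈ M := h.mem_line h1 h2 a b

theorem PM.mono (h : PM M d) (hd : Dim2 E) {y w : E} {R ε τ : ℝ} (h1 : y + (-R) • w ∈ M)
    (h2 : y + R • w ∈ M) (hε : 0 < ε) (hετ : ε ≤ τ) (hτ : τ < R) :
    rr d y w ε * (R + ε) ≤ rr d y w τ * (R + τ) ∧ rr d y w τ * (R - τ) ≤ rr d y w ε * (R - ε) := by
  have my : y ∈ M := by simpa using h.mid h1 h2 (t := 0) (by linarith) (by linarith)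
  have mε := h.mid h1 h2 (t := ε) (by linarith) (by linarith)
  have mτ := h.mid h1 h2 (t := τ) (by linarith) (by linarith)
  rcases eq_or_lt_of_le hετ with e | hlt
  · subst e; exact ⟨le_rfl, le_rfl⟩
  by_cases hw : w = 0
  · subst hw
    simp [rr, h.refl y my]
  obtain ⟨u, hu⟩ := hd w hw
  obtain ⟨u', hu'⟩ := hd (-w) (neg_ne_zero.2 hw)
  have ad := h.add_line (x := y) (v := w) (p := 0) (q := ε) (r := τ) (by simpa using my) mτ
    hε.le hετ
  rw [zero_smul, add_zero] at ad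
  have p1 := h.pconv (A := y + (-R) • w) hu (b := R) (c := R + ε) (e := R + τ) (by linarith)
    (by linarith) (by linarith) h1 (by
      have : y + (-R) • w + (R + τ) • w = y + τ • w := by module
      rwa [this])
  have p2 := h.pconv (A := y + R • w) hu' (b := R - τ) (c := R - ε) (e := R) (by linarith)
    (by linarith) (by linarith) h2 (by
      have : y + R • w + R • -w = y := by module
      rwa [this])
  rw [show y + (-R) • w + R • w = y by module, show y + (-R) • w + (R + ε) • w = y + ε • w by module,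
    show y + (-R) • w + (R + τ) • w = y + τ • w by module] at p1
  rw [show y + R • w + (R - τ) • -w = y + τ • w by module,
    show y + R • w + (R - ε) • -w = y + ε • w by module,
    show y + R • w + R • -w = y by module, h.symm _ mτ _ mε, h.symm _ mε _ my] at p2
  have hτ0 : 0 < τ := by linarith
  unfold rr
  rw [← ad]
  constructor
  · rw [div_mul_eq_mul_div, div_mul_eq_mul_div, div_le_div_iff₀ hε hτ0]
    nlinarith
  · rw [div_mul_eq_mul_div, div_mul_eq_mul_div, div_le_div_iff₀ hτ0 hε]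
    nlinarith

theorem PM.rr_nonneg (h : PM M d) {y w : E} {ε : ℝ} (h1 : y ∈ M) (h2 : y + ε • w ∈ M)
    (hε : 0 < ε) : 0 ≤ rr d y w ε := div_nonneg (h.nonneg h1 h2) hε.le

theorem PM.lim_of (h : PM M d) (hd : Dim2 E) {y w : E} {R : ℝ} (hR : 0 < R)
    (h1 : y + (-R) • w ∈ M) (h2 : y + R • w ∈ M) :
    Tendsto (rr d y w) (𝓝[>] 0) (𝓝 (N d y w)) := by
  have my : y ∈ M := by simpa using h.mid h1 h2 (t := 0) (by linarith) (by linarith)
  have m : MonotoneOn (fun ε => rr d y w ε * (R + ε)) (Ioo 0 R) := fun a ha b hb hab =>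
    (h.mono hd h1 h2 ha.1 hab hb.2).1
  have t := m.tendsto_nhdsWithin_Ioo_right (nonempty_Ioo.2 hR) ⟨0, by
    rintro _ ⟨a, ha, rfl⟩
    exact mul_nonneg (h.rr_nonneg my (h.mid h1 h2 (by linarith [ha.1]) ha.2.le) ha.1)
      (by linarith [ha.1])⟩
  have t2 : Tendsto (fun ε : ℝ => R + ε) (𝓝[>] 0) (𝓝 (R + 0)) :=
    tendsto_const_nhds.add (tendsto_id.mono_left nhdsWithin_le_nhds)
  have t3 := t.div t2 (by simpa using hR.ne')
  refine tendsto_nhds_limUnder ⟨_, t3.congr' ?_⟩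
  filter_upwards [self_mem_nhdsWithin] with ε hε
  have : 0 < ε := hε
  simp only [Pi.div_apply]
  field_simp

theorem PM.N_bd (h : PM M d) (hd : Dim2 E) {y w : E} {R τ : ℝ}
    (h1 : y + (-R) • w ∈ M) (h2 : y + R • w ∈ M) (hτ : 0 < τ) (hR : τ < R) :
    N d y w * R ≤ rr d y w τ * (R + τ) ∧ rr d y w τ * (R - τ) ≤ N d y w * R := by
  have l := h.lim_of hd (by linarith) h1 h2
  have t0 : Tendsto (fun ε : ℝ => ε) (𝓝[>] 0) (𝓝 0) := tendsto_id.mono_left nhdsWithin_le_nhds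
  have ev : ∀ᶠ ε in 𝓝[>] (0:ℝ), ε ∈ Ioo 0 τ := Ioo_mem_nhdsGT hτ
  constructor
  · have := l.mul (tendsto_const_nhds (x := R).add t0)
    rw [add_zero] at this
    refine le_of_tendsto this ?_
    filter_upwards [ev] with ε hε
    exact (h.mono hd h1 h2 hε.1 hε.2.le hR).1
  · have := l.mul (tendsto_const_nhds (x := R).sub t0)
    rw [sub_zero] at this
    refine ge_of_tendsto this ?_
    filter_upwards [ev] with ε hε
    exact (h.mono hd h1 h2 hε.1 hε.2.le hR).2

theorem PM.exR (h : PM M d) {x : E} (hx : x ∈ M) (w : E) :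
    ∃ R : ℝ, 0 < R ∧ x + (-R) • w ∈ M ∧ x + R • w ∈ M := by
  have c1 : Tendsto (fun t : ℝ => x + (-t) • w) (𝓝 0) (𝓝 x) :=
    Continuous.tendsto' (by fun_prop) _ _ (by simp)
  have c2 : Tendsto (fun t : ℝ => x + t • w) (𝓝 0) (𝓝 x) :=
    Continuous.tendsto' (by fun_prop) _ _ (by simp)
  have := (((h.ev hx c1).and (h.ev hx c2)).filter_mono
    (nhdsWithin_le_nhds (s := Ioi (0:ℝ)))).and self_mem_nhdsWithin
  obtain ⟨R, hR⟩ := this.exists
  exact ⟨R, hR.2, hR.1.1, hR.1.2⟩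

theorem PM.lim (h : PM M d) (hd : Dim2 E) {x : E} (hx : x ∈ M) (w : E) :
    Tendsto (rr d x w) (𝓝[>] 0) (𝓝 (N d x w)) := by
  obtain ⟨R, hR, h1, h2⟩ := h.exR hx w
  exact h.lim_of hd hR h1 h2

theorem PM.squeeze (h : PM M d) (hd : Dim2 E) {ι : Type*} {l : Filter ι} {y w : ι → E} {x w0 : E}
    {ρ : ι → ℝ} {R : ℝ} (hR : 0 < R) (h1 : x + (-R) • w0 ∈ M) (h2 : x + R • w0 ∈ M)
    (hy : Tendsto y l (𝓝 x)) (hw : Tendsto w l (𝓝 w0))
    (H : ∀ τ, 0 < τ → τ < R → ∀ᶠ i in l, ρ i * R ≤ rr d (y i) (w i) τ * (R + τ) ∧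
      rr d (y i) (w i) τ * (R - τ) ≤ ρ i * R) : Tendsto ρ l (𝓝 (N d x w0)) := by
  have mx : x ∈ M := by simpa using h.mid h1 h2 (t := 0) (by linarith) (by linarith)
  have l0 := h.lim_of hd hR h1 h2
  have t0 : Tendsto (fun ε : ℝ => ε) (𝓝[>] 0) (𝓝 0) := tendsto_id.mono_left nhdsWithin_le_nhds
  have ev : ∀ᶠ ε in 𝓝[>] (0:ℝ), ε ∈ Ioo 0 R := Ioo_mem_nhdsGT hR
  have tr : ∀ τ, 0 < τ → τ < R →
      Tendsto (fun i => rr d (y i) (w i) τ) l (𝓝 (rr d x w0 τ)) := fun τ a b =>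
    (h.tendsto mx (h.mid h1 h2 (by linarith) b.le) hy (hy.add (hw.const_smul τ))).div_const τ
  rw [tendsto_order]
  constructor
  · intro a ha
    have := l0.mul (tendsto_const_nhds (x := R).sub t0)
    rw [sub_zero] at this
    obtain ⟨τ, e1, e2⟩ := ((this.eventually (lt_mem_nhds
      (mul_lt_mul_of_pos_right ha hR))).and ev).exists
    filter_upwards [H τ e2.1 e2.2, ((tr τ e2.1 e2.2).mul_const (R - τ)).eventually
      (lt_mem_nhds e1)] with i b1 b2
    exact lt_of_mul_lt_mul_right (b2.trans_le b1.2) hR.le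
  · intro a ha
    have := l0.mul (tendsto_const_nhds (x := R).add t0)
    rw [add_zero] at this
    obtain ⟨τ, e1, e2⟩ := ((this.eventually (gt_mem_nhds
      (mul_lt_mul_of_pos_right ha hR))).and ev).exists
    filter_upwards [H τ e2.1 e2.2, ((tr τ e2.1 e2.2).mul_const (R + τ)).eventually
      (gt_mem_nhds e1)] with i b1 b2
    exact lt_of_mul_lt_mul_right (b1.1.trans_lt b2) hR.le

theorem PM.strong (h : PM M d) (hd : Dim2 E) {ι : Type*} {l : Filter ι} {y w : ι → E} {x w0 : E}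
    {ε : ι → ℝ} (hx : x ∈ M) (hy : Tendsto y l (𝓝 x)) (hw : Tendsto w l (𝓝 w0))
    (hε : Tendsto ε l (𝓝[>] 0)) :
    Tendsto (fun i => d (y i) (y i + ε i • w i) / ε i) l (𝓝 (N d x w0)) := by
  obtain ⟨R, hR, h1, h2⟩ := h.exR hx w0
  refine h.squeeze hd hR h1 h2 hy hw fun τ a b => ?_
  filter_upwards [h.ev h1 (hy.add (hw.const_smul (-R))), h.ev h2 (hy.add (hw.const_smul R)),
    hε.eventually (Ioo_mem_nhdsGT a)] with i m1 m2 e
  have m := h.mono hd m1 m2 e.1 e.2.le b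
  have my : y i ∈ M := by simpa using h.mid m1 m2 (t := 0) (by linarith) (by linarith)
  have nn := h.rr_nonneg my (h.mid m1 m2 (t := ε i) (by linarith [e.1]) (by linarith [e.2])) e.1
  have := mul_nonneg nn e.1.le
  change rr d (y i) (w i) (ε i) * R ≤ _ ∧ _ ≤ rr d (y i) (w i) (ε i) * R
  constructor <;> linarith [m.1, m.2]

theorem PM.N_tendsto (h : PM M d) (hd : Dim2 E) {ι : Type*} {l : Filter ι} {y w : ι → E}
    {x w0 : E} (hx : x ∈ M) (hy : Tendsto y l (𝓝 x)) (hw : Tendsto w l (𝓝 w0)) :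
    Tendsto (fun i => N d (y i) (w i)) l (𝓝 (N d x w0)) := by
  obtain ⟨R, hR, h1, h2⟩ := h.exR hx w0
  refine h.squeeze hd hR h1 h2 hy hw fun τ a b => ?_
  filter_upwards [h.ev h1 (hy.add (hw.const_smul (-R))), h.ev h2 (hy.add (hw.const_smul R))]
    with i m1 m2
  exact h.N_bd hd m1 m2 a b

theorem PM.N_pos (h : PM M d) (hd : Dim2 E) {x w : E} (hx : x ∈ M) (hw : w ≠ 0) :
    0 < N d x w := by
  obtain ⟨R, hR, h1, h2⟩ := h.exR hx w
  have b := (h.N_bd hd h1 h2 (τ := R / 2) (by linarith) (by linarith)).2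
  have m := h.mid h1 h2 (t := R / 2) (by linarith) (by linarith)
  have p : 0 < rr d x w (R / 2) := div_pos (h.pos hx m (by
    intro e
    have : (R / 2) • w = 0 := by simpa using e.symm
    rcases smul_eq_zero.1 this with a | a
    · linarith
    · exact hw a)) (by linarith)
  by_contra hn
  push Not at hn
  nlinarith

theorem t_id : Tendsto (fun ε : ℝ => ε) (𝓝[>] 0) (𝓝 0) := tendsto_id.mono_left nhdsWithin_le_nhds

theorem t_sm (x p : E) : Tendsto (fun ε : ℝ => x + ε • p) (𝓝[>] 0) (𝓝 x) :=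
  (Continuous.tendsto' (by fun_prop) _ _ (by simp) :
    Tendsto (fun ε : ℝ => x + ε • p) (𝓝 0) (𝓝 x)).mono_left nhdsWithin_le_nhds

theorem PM.two (h : PM M d) (hd : Dim2 E) {x : E} (hx : x ∈ M) (p q : E) :
    Tendsto (fun ε : ℝ => d (x + ε • p) (x + ε • q) / ε) (𝓝[>] 0) (𝓝 (N d x (q - p))) := by
  have := h.strong hd hx (t_sm x p) (tendsto_const_nhds (x := q - p)) tendsto_id
  refine this.congr fun ε => ?_
  rw [show x + ε • p + id ε • (q - p) = x + ε • q by simp only [id]; module]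
  rfl

theorem PM.N_neg (h : PM M d) (hd : Dim2 E) {x : E} (hx : x ∈ M) (w : E) :
    N d x (-w) = N d x w := by
  have a := h.two hd hx w 0
  have b := h.two hd hx 0 w
  rw [zero_sub] at a
  rw [sub_zero] at b
  refine tendsto_nhds_unique a (b.congr' ?_)
  filter_upwards [h.ev hx (t_sm x w), h.ev hx (t_sm x 0)] with ε m1 m2
  rw [h.symm _ m2 _ m1]

theorem PM.N_zero (h : PM M d) (hd : Dim2 E) {x : E} (hx : x ∈ M) : N d x 0 = 0 := by
  refine tendsto_nhds_unique (h.lim hd hx 0) (tendsto_const_nhds.congr fun ε => ?_)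
  simp [rr, h.refl x hx]

theorem PM.N_nonneg (h : PM M d) (hd : Dim2 E) {x : E} (hx : x ∈ M) (w : E) : 0 ≤ N d x w := by
  by_cases hw : w = 0
  · rw [hw, h.N_zero hd hx]
  · exact (h.N_pos hd hx hw).le

theorem PM.N_smul_pos (h : PM M d) (hd : Dim2 E) {x : E} (hx : x ∈ M) (w : E) {c : ℝ}
    (hc : 0 < c) : N d x (c • w) = c * N d x w := by
  have t : Tendsto (fun ε : ℝ => ε * c) (𝓝[>] 0) (𝓝[>] 0) := by
    refine tendsto_nhdsWithin_iff.2 ⟨by simpa using t_id.mul_const c, ?_⟩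
    filter_upwards [self_mem_nhdsWithin] with ε hε
    exact mul_pos hε hc
  have a := (h.strong hd hx tendsto_const_nhds (tendsto_const_nhds (x := w)) t).const_mul c
  refine tendsto_nhds_unique (h.lim hd hx (c • w)) (a.congr' ?_)
  filter_upwards [self_mem_nhdsWithin] with ε hε
  have : 0 < ε := hε
  simp only [rr, smul_smul]
  field_simp

theorem PM.N_smul (h : PM M d) (hd : Dim2 E) {x : E} (hx : x ∈ M) (w : E) (c : ℝ) :
    N d x (c • w) = |c| * N d x w := by
  rcases lt_trichotomy c 0 with a | a | a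
  · rw [show c • w = -((-c) • w) by simp, h.N_neg hd hx, h.N_smul_pos hd hx w (by linarith),
      abs_of_neg a]
  · simp [a, h.N_zero hd hx]
  · rw [h.N_smul_pos hd hx w a, abs_of_pos a]

theorem PM.N_pto (h : PM M d) (hd : Dim2 E) {x : E} (hx : x ∈ M) (a b c e : E) :
    N d x (c - a) * N d x (e - b) ≤
      N d x (b - a) * N d x (e - c) + N d x (c - b) * N d x (a - e) := by
  refine le_of_tendsto_of_tendsto ((h.two hd hx a c).mul (h.two hd hx b e))
    (((h.two hd hx a b).mul (h.two hd hx c e)).add ((h.two hd hx b c).mul (h.two hd hx e a))) ?_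
  filter_upwards [h.ev hx (t_sm x a), h.ev hx (t_sm x b), h.ev hx (t_sm x c), h.ev hx (t_sm x e),
    self_mem_nhdsWithin] with ε m1 m2 m3 m4 hε
  have e0 : 0 < ε := hε
  have := h.pto _ m1 _ m2 _ m3 _ m4
  rw [div_mul_div_comm, div_mul_div_comm, div_mul_div_comm, ← add_div]
  exact div_le_div_of_nonneg_right this (by positivity)

theorem PM.N_cont (h : PM M d) (hd : Dim2 E) {x : E} (hx : x ∈ M) : Continuous (N d x) :=
  continuous_iff_continuousAt.2 fun _ => h.N_tendsto hd hx tendsto_const_nhds tendsto_id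

theorem right_deriv {f : ℝ → ℝ} {t c : ℝ}
    (H : Tendsto (fun ε : ℝ => (f (t + ε) - f t) / ε) (𝓝[>] 0) (𝓝 c)) :
    HasDerivWithinAt f c (Ici t) t := by
  rw [← hasDerivWithinAt_Ioi_iff_Ici, hasDerivWithinAt_iff_tendsto_slope' (by simp)]
  have t1 : Tendsto (fun s : ℝ => s - t) (𝓝[>] t) (𝓝[>] 0) := by
    refine tendsto_nhdsWithin_iff.2 ⟨?_, ?_⟩
    · exact (Continuous.tendsto' (by fun_prop) _ _ (by simp) :
        Tendsto (fun s : ℝ => s - t) (𝓝 t) (𝓝 0)).mono_left nhdsWithin_le_nhds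
    · filter_upwards [self_mem_nhdsWithin] with s hs
      exact sub_pos.2 (show t < s from hs)
  refine (H.comp t1).congr fun s => ?_
  simp [slope_def_field]

theorem PM.arc_deriv (h : PM M d) (hd : Dim2 E) {x v : E} {t : ℝ} (hx : x ∈ M) (ht : 0 ≤ t)
    (hm : x + t • v ∈ M) :
    HasDerivWithinAt (fun s : ℝ => d x (x + s • v)) (N d (x + t • v) v) (Ici t) t := by
  refine right_deriv ((h.lim hd hm v).congr' ?_)
  filter_upwards [h.ev hm (t_sm _ v), self_mem_nhdsWithin] with ε m hε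
  have e0 : 0 < ε := hε
  have e : x + t • v + ε • v = x + (t + ε) • v := by module
  rw [e] at m
  have := h.add_line (x := x) (v := v) (p := 0) (q := t) (r := t + ε) (by simpa using hx) m ht
    (by linarith)
  rw [zero_smul, add_zero] at this
  rw [rr, e, ← this]
  ring

theorem PM.arc_cont (h : PM M d) {x v y : E} {T : ℝ} (hx : x ∈ M) (hy : y ∈ M)
    (hm : x + T • v ∈ M) : ContinuousOn (fun s : ℝ => d y (x + s • v)) (Icc 0 T) := by
  intro s hs
  have m : x + s • v ∈ M := h.mem_line (p := 0) (by simpa using hx) hm hs.1 hs.2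
  have c : Continuous fun s : ℝ => x + s • v := by fun_prop
  exact (h.tendsto hy m tendsto_const_nhds (c.tendsto s)).mono_left nhdsWithin_le_nhds

end Pool.Agent.H.MP_594704_gt
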