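import Pool.Agent.H.MP_594704_gt.C

set_option autoImplicit false

namespace Pool.Agent.H.MP_594704_gt

open Set Filter Topology

def bf (c : ℝ × ℝ × ℝ) (a b : ℝ × ℝ) : ℝ :=
  c.1 * (a.1 * b.1) + c.2.1 * (a.1 * b.2 + a.2 * b.1) + c.2.2 * (a.2 * b.2)

theorem bf_smul (c : ℝ × ℝ × ℝ) (t : ℝ) (a : ℝ × ℝ) : bf c (t • a) (t • a) = t ^ 2 * bf c a a := by
  simp only [bf, Prod.smul_fst, Prod.smul_snd, smul_eq_mul]; ring

section
variable {n : ℝ × ℝ → ℝ} (hc : Continuous n) (hp : ∀ w, w ≠ 0 → 0 < n w)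
  (hs : ∀ (t : ℝ) w, n (t • w) = |t| * n w)
  (hpt : ∀ a b c e, n (c - a) * n (e - b) ≤ n (b - a) * n (e - c) + n (c - b) * n (a - e))

include hs in
theorem n_zero : n 0 = 0 := by simpa using hs 0 0

include hs in
theorem n_neg (w : ℝ × ℝ) : n (-w) = n w := by simpa using hs (-1) w

include hs in
theorem homog (c : ℝ × ℝ × ℝ) (H : ∀ w, ‖w‖ = 1 → n w ^ 2 ≤ bf c w w) (w : ℝ × ℝ) :
    n w ^ 2 ≤ bf c w w := by
  by_cases hw : w = 0
  · simp [hw, n_zero hs, bf]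
  · have h0 : 0 < ‖w‖ := norm_pos_iff.2 hw
    have e : w = ‖w‖ • (‖w‖⁻¹ • w) := by rw [smul_smul, mul_inv_cancel₀ h0.ne', one_smul]
    have := H (‖w‖⁻¹ • w) (by rw [norm_smul, norm_inv, norm_norm, inv_mul_cancel₀ h0.ne'])
    rw [e, hs, bf_smul, mul_pow, sq_abs]
    exact mul_le_mul_of_nonneg_left this (sq_nonneg _)

include hc hs in
theorem two_contacts : ∃ c : ℝ × ℝ × ℝ, (∀ w, n w ^ 2 ≤ bf c w w) ∧ ∃ u v : ℝ × ℝ,
    n u ^ 2 = bf c u u ∧ n v ^ 2 = bf c v v ∧ u.1 * v.2 - u.2 * v.1 ≠ 0 := by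
  obtain ⟨C, hC⟩ := (isCompact_sphere (0 : ℝ × ℝ) 1).bddAbove_image
    (f := fun w => n w ^ 2) (by fun_prop)
  have sq1 : ∀ w : ℝ × ℝ, ‖w‖ = 1 → 1 ≤ w.1 ^ 2 + w.2 ^ 2 ∧ w.1 ^ 2 + w.2 ^ 2 ≤ 2 := by
    intro w hw
    have a1 : |w.1| ≤ 1 := hw ▸ norm_fst_le w
    have a2 : |w.2| ≤ 1 := hw ▸ norm_snd_le w
    rw [Prod.norm_def, Real.norm_eq_abs, Real.norm_eq_abs] at hw
    rw [← sq_abs w.1, ← sq_abs w.2]
    have b1 := abs_nonneg w.1
    have b2 := abs_nonneg w.2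
    constructor
    · rcases max_choice |w.1| |w.2| with a | a <;> rw [a] at hw <;> nlinarith
    · nlinarith
  have hC' : ∀ w : ℝ × ℝ, ‖w‖ = 1 → n w ^ 2 ≤ C := fun w hw => hC ⟨w, by simpa using hw, rfl⟩
  have C0 : 0 ≤ C := (sq_nonneg _).trans (hC' (1, 0) (by simp [Prod.norm_def]))
  let K : Set (ℝ × ℝ × ℝ) := {c | (∀ w, n w ^ 2 ≤ bf c w w) ∧ c.1 + c.2.2 ≤ 2 * C}
  have Kcl : IsClosed K := by
    have k2 : IsClosed {c : ℝ × ℝ × ℝ | c.1 + c.2.2 ≤ 2 * C} :=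
      isClosed_le (by fun_prop) continuous_const
    refine IsClosed.inter (s₁ := {c : ℝ × ℝ × ℝ | ∀ w, n w ^ 2 ≤ bf c w w}) ?_ k2
    rw [setOf_forall]
    exact isClosed_iInter fun w => isClosed_le continuous_const (by unfold bf; fun_prop)
  have Kc : IsCompact K := by
    refine (isCompact_Icc (a := ((0, -C, 0) : ℝ × ℝ × ℝ)) (b := (2 * C, C, 2 * C))).of_isClosed_subset
      Kcl ?_
    rintro c ⟨h1, h2⟩
    have a1 := (sq_nonneg _).trans (h1 (1, 0))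
    have a2 := (sq_nonneg _).trans (h1 (0, 1))
    have a3 := (sq_nonneg _).trans (h1 (1, 1))
    have a4 := (sq_nonneg _).trans (h1 (1, -1))
    simp only [bf] at a1 a2 a3 a4
    refine ⟨⟨?_, ?_, ?_⟩, ⟨?_, ?_, ?_⟩⟩ <;> simp only <;> linarith
  have Kn : K.Nonempty := ⟨(C, 0, C), homog hs _ fun w hw => by
    have := hC' w hw
    have := (sq1 w hw).1
    simp only [bf]; nlinarith, by simp only; linarith⟩
  obtain ⟨c, ⟨c1, c2⟩, cm⟩ := Kc.exists_isMinOn Kn (f := fun c => c.1 + c.2.2) (by fun_prop)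
  refine ⟨c, c1, ?_⟩
  by_contra hcon
  push Not at hcon
  have hu : ∃ u : ℝ × ℝ, u ≠ 0 ∧ ∀ w, n w ^ 2 = bf c w w → u.1 * w.2 - u.2 * w.1 = 0 := by
    by_cases ex : ∃ u : ℝ × ℝ, u ≠ 0 ∧ n u ^ 2 = bf c u u
    · obtain ⟨u, a, b⟩ := ex
      exact ⟨u, a, fun w hw => hcon u w b hw⟩
    · push Not at ex
      refine ⟨(1, 0), by simp, fun w hw => ?_⟩
      by_cases hw0 : w = 0
      · simp [hw0]
      · exact absurd hw (ex w hw0)
  obtain ⟨u, u0, hu⟩ := hu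
  have uu : 0 < u.1 ^ 2 + u.2 ^ 2 := by
    by_contra hn
    apply u0
    ext <;> simp <;> nlinarith [sq_nonneg u.1, sq_nonneg u.2]
  let K' : Set (ℝ × ℝ) := Metric.sphere 0 1 ∩
    {w | (u.1 * w.1 + u.2 * w.2) ^ 2 / 2 ≤ (u.1 * w.2 - u.2 * w.1) ^ 2}
  have K'c : IsCompact K' := (isCompact_sphere _ _).inter_right
    (isClosed_le (by fun_prop) (by fun_prop))
  obtain ⟨δ, δ0, hδ⟩ := K'c.exists_forall_le' (f := fun w => bf c w w - n w ^ 2) (a := 0)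
    (by unfold bf; fun_prop) (by
      rintro w ⟨w1, w2⟩
      have w1' : ‖w‖ = 1 := by simpa using w1
      refine sub_pos.2 (lt_of_le_of_ne (c1 w) fun e => ?_)
      have := hu w e
      have w3 : (u.1 * w.1 + u.2 * w.2) ^ 2 / 2 ≤ (u.1 * w.2 - u.2 * w.1) ^ 2 := w2
      have id : (u.1 * w.1 + u.2 * w.2) ^ 2 + (u.1 * w.2 - u.2 * w.1) ^ 2 =
        (u.1 ^ 2 + u.2 ^ 2) * (w.1 ^ 2 + w.2 ^ 2) := by ring
      rw [this] at w3 id
      nlinarith [(sq1 w w1').1])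
  set ε := δ / (2 * (u.1 ^ 2 + u.2 ^ 2)) with hε
  have ε0 : 0 < ε := by positivity
  have εδ : ε * (2 * (u.1 ^ 2 + u.2 ^ 2)) = δ := by rw [hε]; field_simp
  let c' : ℝ × ℝ × ℝ := (c.1 + ε * (u.1 ^ 2 / 2 - u.2 ^ 2), c.2.1 + ε * (3 / 2 * u.1 * u.2),
    c.2.2 + ε * (u.2 ^ 2 / 2 - u.1 ^ 2))
  have e' : ∀ w, bf c' w w = bf c w w +
      ε * ((u.1 * w.1 + u.2 * w.2) ^ 2 / 2 - (u.1 * w.2 - u.2 * w.1) ^ 2) := fun w => by
    simp only [bf, c']; ring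
  have tr : c'.1 + c'.2.2 < c.1 + c.2.2 := by
    simp only [c']; nlinarith
  have m : c' ∈ K := by
    refine ⟨homog hs _ fun w hw => ?_, by linarith⟩
    rw [e']
    by_cases hK : (u.1 * w.1 + u.2 * w.2) ^ 2 / 2 ≤ (u.1 * w.2 - u.2 * w.1) ^ 2
    · have := hδ w ⟨by simpa using hw, hK⟩
      have id : (u.1 * w.1 + u.2 * w.2) ^ 2 + (u.1 * w.2 - u.2 * w.1) ^ 2 =
        (u.1 ^ 2 + u.2 ^ 2) * (w.1 ^ 2 + w.2 ^ 2) := by ring
      have b : (u.1 * w.2 - u.2 * w.1) ^ 2 ≤ 2 * (u.1 ^ 2 + u.2 ^ 2) := by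
        nlinarith [(sq1 w hw).2, sq_nonneg (u.1 * w.1 + u.2 * w.2)]
      nlinarith [sq_nonneg (u.1 * w.1 + u.2 * w.2)]
    · push Not at hK
      nlinarith [c1 w]
  have := cm m
  simp only [mem_setOf_eq] at this
  linarith

include hp hs hpt in
theorem pair (c : ℝ × ℝ × ℝ) (c1 : ∀ w, n w ^ 2 ≤ bf c w w) (u v : ℝ × ℝ) (nu : n u = 1)
    (nv : n v = 1) (qu : bf c u u = 1) (qv : bf c v v = 1) (s t : ℝ) (s0 : 0 ≤ s) (t0 : 0 ≤ t) :
    n (s • u + t • v) ^ 2 = bf c (s • u + t • v) (s • u + t • v) := by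
  have nn : ∀ w, 0 ≤ n w := fun w => by
    by_cases hw : w = 0
    · rw [hw, n_zero hs]
    · exact (hp w hw).le
  have p := hpt (t • u) (t • v) (-(s • u)) (-(s • v))
  rw [show -(s • u) - t • u = (-(s + t)) • u by module, show -(s • v) - t • v = (-(s + t)) • v by module,
    show t • v - t • u = (-t) • (u - v) by module, show -(s • v) - -(s • u) = s • (u - v) by module,
    show -(s • u) - t • v = -(s • u + t • v) by module,
    show t • u - -(s • v) = t • u + s • v by module, hs, hs, hs, hs, n_neg hs, nu, nv, abs_neg,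
    abs_neg, abs_of_nonneg s0, abs_of_nonneg t0, abs_of_nonneg (add_nonneg s0 t0)] at p
  have a1 := c1 (u - v)
  have a2 := c1 (s • u + t • v)
  have a3 := c1 (t • u + s • v)
  have e1 : bf c (u - v) (u - v) = bf c u u + bf c v v - 2 * bf c u v := by
    simp only [bf, Prod.fst_sub, Prod.snd_sub]; ring
  have e2 : ∀ s t : ℝ, bf c (s • u + t • v) (s • u + t • v) =
      s ^ 2 * bf c u u + t ^ 2 * bf c v v + 2 * s * t * bf c u v := fun s t => by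
    simp only [bf, Prod.fst_add, Prod.snd_add, Prod.smul_fst, Prod.smul_snd, smul_eq_mul]; ring
  rw [e1, qu, qv] at a1
  rw [e2, qu, qv] at a2 a3 ⊢
  set Q := s ^ 2 * 1 + t ^ 2 * 1 + 2 * s * t * bf c u v with hQ
  have a3' : n (t • u + s • v) ^ 2 ≤ Q := by rw [hQ]; linarith
  set n1 := n (s • u + t • v)
  set n2 := n (t • u + s • v)
  have b : Q ≤ n1 * n2 := by
    have := mul_le_mul_of_nonneg_left a1 (mul_nonneg s0 t0)
    rw [hQ]; nlinarith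
  have n10 : 0 ≤ n1 := nn _
  have n20 : 0 ≤ n2 := nn _
  refine le_antisymm a2 ?_
  nlinarith [sq_nonneg (n1 - n2)]

include hc hp hs hpt in
theorem euclid : ∃ c : ℝ × ℝ × ℝ, ∀ w, n w ^ 2 = bf c w w := by
  obtain ⟨c, c1, u, v, hu, hv, hd⟩ := two_contacts hc hs
  have u0 : u ≠ 0 := by rintro rfl; simp at hd
  have v0 : v ≠ 0 := by rintro rfl; simp at hd
  have nm : ∀ (u : ℝ × ℝ) (σ : ℝ), u ≠ 0 → n u ^ 2 = bf c u u → |σ| = 1 →
      n ((σ / n u) • u) = 1 ∧ bf c ((σ / n u) • u) ((σ / n u) • u) = 1 := by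
    intro u σ a b e
    have := hp u a
    constructor
    · rw [hs, abs_div, e, abs_of_pos this]; field_simp
    · rw [bf_smul, ← b, div_pow, ← sq_abs σ, e]; field_simp
  have sg : ∀ a : ℝ, ∃ σ : ℝ, |σ| = 1 ∧ |a| * σ = a := fun a => by
    rcases le_total 0 a with h | h
    · exact ⟨1, by simp, by simp [abs_of_nonneg h]⟩
    · exact ⟨-1, by simp, by simp [abs_of_nonpos h]⟩
  refine ⟨c, fun w => ?_⟩
  set α := (w.1 * v.2 - w.2 * v.1) / (u.1 * v.2 - u.2 * v.1) with hα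
  set β := (u.1 * w.2 - u.2 * w.1) / (u.1 * v.2 - u.2 * v.1) with hβ
  obtain ⟨σ, σ1, σ2⟩ := sg α
  obtain ⟨τ, τ1, τ2⟩ := sg β
  have nu := hp u u0
  have nv := hp v v0
  have e : w = (|α| * n u) • ((σ / n u) • u) + (|β| * n v) • ((τ / n v) • v) := by
    rw [smul_smul, smul_smul, show |α| * n u * (σ / n u) = |α| * σ by field_simp,
      show |β| * n v * (τ / n v) = |β| * τ by field_simp, σ2, τ2]
    ext
    · simp only [Prod.fst_add, Prod.smul_fst, smul_eq_mul, hα, hβ]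
      rw [div_mul_eq_mul_div, div_mul_eq_mul_div, ← add_div, eq_div_iff hd]; ring
    · simp only [Prod.snd_add, Prod.smul_snd, smul_eq_mul, hα, hβ]
      rw [div_mul_eq_mul_div, div_mul_eq_mul_div, ← add_div, eq_div_iff hd]; ring
  rw [e]
  exact pair hp hs hpt c c1 _ _ (nm u σ u0 hu σ1).1 (nm v τ v0 hv τ1).1 (nm u σ u0 hu σ1).2
    (nm v τ v0 hv τ1).2 _ _ (by positivity) (by positivity)

end

theorem dim2_prod : Dim2 (ℝ × ℝ) := by
  intro v hv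
  refine ⟨(-v.2, v.1), fun a b e => ?_⟩
  have e1 := congrArg Prod.fst e
  have e2 := congrArg Prod.snd e
  simp at e1 e2
  have uu : 0 < v.1 ^ 2 + v.2 ^ 2 := by
    by_contra hn
    apply hv
    ext <;> simp <;> nlinarith [sq_nonneg v.1, sq_nonneg v.2]
  constructor
  · have : a * (v.1 ^ 2 + v.2 ^ 2) = 0 := by linear_combination v.1 * e1 + v.2 * e2
    exact (mul_eq_zero.1 this).resolve_right uu.ne'
  · have : b * (v.1 ^ 2 + v.2 ^ 2) = 0 := by linear_combination (-v.2) * e1 + v.1 * e2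
    exact (mul_eq_zero.1 this).resolve_right uu.ne'

noncomputable def gm (d : ℝ × ℝ → ℝ × ℝ → ℝ) (x : ℝ × ℝ) : ℝ × ℝ × ℝ :=
  (N d x (1, 0) ^ 2, (N d x (1, 1) ^ 2 - N d x (1, 0) ^ 2 - N d x (0, 1) ^ 2) / 2, N d x (0, 1) ^ 2)

variable {M : Set (ℝ × ℝ)} {d : ℝ × ℝ → ℝ × ℝ → ℝ}

theorem PM.N_sq (h : PM M d) {x : ℝ × ℝ} (hx : x ∈ M) (w : ℝ × ℝ) :
    N d x w ^ 2 = bf (gm d x) w w := by
  obtain ⟨c, hc⟩ := euclid (h.N_cont dim2_prod hx) (fun w hw => h.N_pos dim2_prod hx hw)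
    (fun t w => h.N_smul dim2_prod hx w t) (h.N_pto dim2_prod hx)
  simp only [gm, hc, bf]
  ring

theorem PM.N_sqrt (h : PM M d) {x : ℝ × ℝ} (hx : x ∈ M) (w : ℝ × ℝ) :
    N d x w = √(bf (gm d x) w w) := by
  rw [← h.N_sq hx, Real.sqrt_sq (h.N_nonneg dim2_prod hx w)]

theorem PM.gm_tendsto (h : PM M d) {ι : Type*} {l : Filter ι} {y : ι → ℝ × ℝ} {x : ℝ × ℝ}
    (hx : x ∈ M) (hy : Tendsto y l (𝓝 x)) : Tendsto (fun i => gm d (y i)) l (𝓝 (gm d x)) := by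
  have t : ∀ w, Tendsto (fun i => N d (y i) w ^ 2) l (𝓝 (N d x w ^ 2)) := fun w =>
    (h.N_tendsto dim2_prod hx hy tendsto_const_nhds).pow 2
  exact (t _).prodMk_nhds (((((t _).sub (t _)).sub (t _)).div_const 2).prodMk_nhds (t _))

end Pool.Agent.H.MP_594704_gt
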