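import Pool.Agent.H.MP_594704_gt.D

set_option autoImplicit false

namespace Pool.Agent.H.MP_594704_gt

open Set Filter Topology

variable {M : Set (ℝ × ℝ)} {d : ℝ × ℝ → ℝ × ℝ → ℝ}

noncomputable def cs (g : ℝ × ℝ × ℝ) (w u : ℝ × ℝ) : ℝ := bf g w u / √(bf g w w)

noncomputable def KK (g : ℝ × ℝ × ℝ) (w u : ℝ × ℝ) : ℝ :=
  (bf g u u * bf g w w - bf g w u ^ 2) / √(bf g w w) ^ 3

theorem PM.fv (h : PM M d) {x y : ℝ × ℝ} (hx : x ∈ M) (hy : y ∈ M) (hxy : y - x ≠ 0) (u : ℝ × ℝ) :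
    Tendsto (fun ε : ℝ => (d (x + ε • u) y - d x y) / ε) (𝓝[>] 0) (𝓝 (-cs (gm d x) (y - x) u)) := by
  set v := y - x with hv
  have ey : x + (1:ℝ) • v = y := by simp [hv]
  unfold cs
  rw [← h.N_sqrt hx]
  set a := N d x v with ha
  have a0 : 0 < a := h.N_pos dim2_prod hx hxy
  set b := bf (gm d x) v u with hb
  set c := bf (gm d x) u u with hc
  have c0 : 0 ≤ c := by rw [hc, ← h.N_sq hx]; exact sq_nonneg _
  have key : ∀ L σ : ℝ, 0 < L → σ ^ 2 = 1 →
      N d x (L • v + σ • u) ≤ L * a + σ * (b / a) + c / (2 * L * a) := by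
    intro L σ hL hσ
    have e : N d x (L • v + σ • u) ^ 2 = L ^ 2 * a ^ 2 + 2 * L * σ * b + σ ^ 2 * c := by
      rw [h.N_sq hx, ha, h.N_sq hx, hb, hc]
      simp only [bf, Prod.fst_add, Prod.snd_add, Prod.smul_fst, Prod.smul_snd, smul_eq_mul]; ring
    have : L * a + σ * (b / a) + c / (2 * L * a) =
        (2 * L ^ 2 * a ^ 2 + 2 * L * σ * b + c) / (2 * L * a) := by field_simp
    rw [this, le_div_iff₀ (by positivity)]
    rw [hσ] at e
    nlinarith [sq_nonneg (N d x (L • v + σ • u) - L * a)]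
  have exL : ∀ η : ℝ, 0 < η → ∃ L : ℝ, 0 < L ∧ c / (2 * L * a) < η := fun η hη => by
    refine ⟨(c + 1) / (η * a), by positivity, ?_⟩
    rw [div_lt_iff₀ (by positivity)]
    have : η * (2 * ((c + 1) / (η * a)) * a) = 2 * (c + 1) := by field_simp
    rw [this]; linarith
  have evL : ∀ L : ℝ, ∀ᶠ ε in 𝓝[>] (0:ℝ), ε * L < 1 := fun L =>
    (t_id.mul_const L).eventually (gt_mem_nhds (by simp))
  rw [tendsto_order]
  constructor
  · intro a' ha'
    obtain ⟨L, L0, hL⟩ := exL (-(b / a) - a') (by linarith)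
    have t := (h.two dim2_prod hx (-(L • v)) 0).sub (h.two dim2_prod hx (-(L • v)) u)
    rw [show (0 : ℝ × ℝ) - -(L • v) = L • v by simp, h.N_smul_pos dim2_prod hx v L0,
      show u - -(L • v) = L • v + (1:ℝ) • u by module] at t
    have k := key L 1 L0 (by norm_num)
    filter_upwards [t.eventually (lt_mem_nhds (a := a') (by linarith)), h.ev hx (t_sm x u),
      h.ev hx (t_sm x (-(L • v))), self_mem_nhdsWithin] with ε e1 m1 m2 hε
    have e0 : 0 < ε := hε
    refine e1.trans_le ?_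
    rw [← sub_div]
    refine div_le_div_of_nonneg_right ?_ e0.le
    have e2 : x + ε • -(L • v) = x + (-(ε * L)) • v := by module
    rw [e2] at m2 ⊢
    have ad := h.add_line m2 (r := 1) (q := 0) (by rwa [ey]) (by nlinarith) zero_le_one
    have tr := h.tri _ m2 _ m1 _ hy
    rw [ey] at ad
    simp only [zero_smul, smul_zero, add_zero] at ad ⊢
    linarith
  · intro a' ha'
    obtain ⟨L, L0, hL⟩ := exL (a' + b / a) (by linarith)
    have t := (h.two dim2_prod hx u (L • v)).sub (h.two dim2_prod hx 0 (L • v))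
    rw [sub_zero, h.N_smul_pos dim2_prod hx v L0,
      show L • v - u = L • v + (-1:ℝ) • u by module] at t
    have k := key L (-1) L0 (by norm_num)
    filter_upwards [t.eventually (gt_mem_nhds (a := a') (by linarith)), h.ev hx (t_sm x u),
      h.ev hx (t_sm x (L • v)), evL L, self_mem_nhdsWithin] with ε e1 m1 m2 e3 hε
    have e0 : 0 < ε := hε
    refine lt_of_le_of_lt ?_ e1
    rw [← sub_div]
    refine div_le_div_of_nonneg_right ?_ e0.le
    have e2 : x + ε • L • v = x + (ε * L) • v := by module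
    rw [e2] at m2 ⊢
    have ad := h.add_line (x := x) (v := v) (p := 0) (r := 1) (q := ε * L) (by simpa using hx)
      (by rwa [ey]) (by positivity) e3.le
    have tr := h.tri _ m1 _ m2 _ hy
    rw [ey] at ad
    simp only [zero_smul, smul_zero, add_zero] at ad ⊢
    linarith

theorem PM.fv_deriv (h : PM M d) {x y u : ℝ × ℝ} {σ : ℝ} (hx : x + σ • u ∈ M) (hy : y ∈ M)
    (hxy : y - (x + σ • u) ≠ 0) : HasDerivWithinAt (fun s : ℝ => d (x + s • u) y)
      (-cs (gm d (x + σ • u)) (y - (x + σ • u)) u) (Ici σ) σ := by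
  refine right_deriv ((h.fv hx hy hxy u).congr fun ε => ?_)
  rw [show x + σ • u + ε • u = x + (σ + ε) • u by module]

theorem cs_deriv (g : ℝ × ℝ × ℝ) (w u : ℝ × ℝ) (τ : ℝ) (hp : 0 < bf g (w + τ • u) (w + τ • u)) :
    HasDerivAt (fun t : ℝ => cs g (w + t • u) u) (KK g (w + τ • u) u) τ := by
  have e1 : ∀ t : ℝ, bf g (w + t • u) u = bf g w u + t * bf g u u := fun t => by
    simp only [bf, Prod.fst_add, Prod.snd_add, Prod.smul_fst, Prod.smul_snd, smul_eq_mul]; ring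
  have e2 : ∀ t : ℝ, bf g (w + t • u) (w + t • u) =
      bf g w w + t * (2 * bf g w u) + t ^ 2 * bf g u u := fun t => by
    simp only [bf, Prod.fst_add, Prod.snd_add, Prod.smul_fst, Prod.smul_snd, smul_eq_mul]; ring
  have d1 : HasDerivAt (fun t : ℝ => bf g (w + t • u) u) (bf g u u) τ := by
    simp only [e1]
    simpa using ((hasDerivAt_id τ).mul_const (bf g u u)).const_add (bf g w u)
  have d2 : HasDerivAt (fun t : ℝ => bf g (w + t • u) (w + t • u))
      (2 * bf g (w + τ • u) u) τ := by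
    simp only [e2, e1]
    have := ((((hasDerivAt_id τ).mul_const (2 * bf g w u)).const_add (bf g w w)).add
      ((hasDerivAt_pow 2 τ).mul_const (bf g u u)))
    refine this.congr_deriv ?_
    simp; ring
  have d3 := d1.div (d2.sqrt hp.ne') (Real.sqrt_pos.2 hp).ne'
  refine d3.congr_deriv ?_
  unfold KK
  have s0 := Real.sqrt_pos.2 hp
  have s2 := Real.sq_sqrt hp.le
  set s := √(bf g (w + τ • u) (w + τ • u))
  rw [← s2]
  field_simp

theorem PM.mixed (h : PM M d) {x y : ℝ × ℝ} (hx : x ∈ M) (hy : y ∈ M) (hxy : y - x ≠ 0)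
    (u : ℝ × ℝ) : Tendsto (fun ε : ℝ => (d (x + ε • u) (y + ε • u) - d (x + ε • u) y -
      d x (y + ε • u) + d x y) / ε ^ 2) (𝓝[>] 0) (𝓝 (-KK (gm d x) (y - x) u)) := by
  set v := y - x with hv
  set K0 := KK (gm d x) v u with hK0
  have p0 : 0 < bf (gm d x) v v := by
    rw [← h.N_sq hx]; exact pow_pos (h.N_pos dim2_prod hx hxy) 2
  have t1 : Tendsto (fun p : ℝ × ℝ => x + p.1 • u) (𝓝 0) (𝓝 x) :=
    Continuous.tendsto' (by fun_prop) _ _ (by simp)
  have t1' : Tendsto (fun p : ℝ × ℝ => y + p.1 • u) (𝓝 0) (𝓝 y) :=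
    Continuous.tendsto' (by fun_prop) _ _ (by simp)
  have t2 : Tendsto (fun p : ℝ × ℝ => v + p.2 • u) (𝓝 0) (𝓝 v) :=
    Continuous.tendsto' (by fun_prop) _ _ (by simp)
  have t3 := (h.gm_tendsto hx t1).prodMk_nhds t2
  have cb : Continuous fun q : (ℝ × ℝ × ℝ) × ℝ × ℝ => bf q.1 q.2 q.2 := by unfold bf; fun_prop
  have cK : ContinuousAt (fun q : (ℝ × ℝ × ℝ) × ℝ × ℝ => KK q.1 q.2 u) (gm d x, v) := by
    unfold KK
    refine ContinuousAt.div (by unfold bf; fun_prop) (by unfold bf; fun_prop) ?_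
    exact (pow_pos (Real.sqrt_pos.2 p0) 3).ne'
  have t4 := cK.tendsto.comp t3
  have t5 := (cb.tendsto (gm d x, v)).comp t3
  rw [Metric.tendsto_nhds]
  intro η hη
  have ev := (Metric.tendsto_nhds.1 t4 (η / 2) (by linarith)).and
    ((t5.eventually (lt_mem_nhds p0)).and ((h.ev hx t1).and (h.ev hy t1')))
  obtain ⟨δ, δ0, hδ⟩ := Metric.eventually_nhds_iff.1 ev
  have G : ∀ σ ρ : ℝ, |σ| < δ → |ρ| < δ →
      |KK (gm d (x + σ • u)) (v + ρ • u) u - K0| < η / 2 ∧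
      0 < bf (gm d (x + σ • u)) (v + ρ • u) (v + ρ • u) ∧ x + σ • u ∈ M ∧ y + σ • u ∈ M := by
    intro σ ρ a b
    exact hδ (y := (σ, ρ)) (by simp [Prod.norm_def, a, b])
  filter_upwards [Ioo_mem_nhdsGT δ0] with ε hε
  have ε0 := hε.1
  have ab : ∀ σ, 0 ≤ σ → σ ≤ ε → |σ| < δ := fun σ a b => by rw [abs_of_nonneg a]; linarith [hε.2]
  have ab2 : ∀ σ τ, 0 ≤ σ → σ ≤ ε → 0 ≤ τ → τ ≤ ε → |τ - σ| < δ := fun σ τ a b a' b' => by
    rw [abs_lt]; constructor <;> linarith [hε.2]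
  have my : y + ε • u ∈ M := (G ε 0 (ab ε ε0.le le_rfl) (by simpa using δ0)).2.2.2
  have mx : x + ε • u ∈ M := (G ε 0 (ab ε ε0.le le_rfl) (by simpa using δ0)).2.2.1
  have ne : ∀ (g : ℝ × ℝ × ℝ) (w : ℝ × ℝ), 0 < bf g w w → w ≠ 0 := by
    rintro g w a rfl
    simp [bf] at a
  have inner : ∀ σ ∈ Ico 0 ε, ‖-cs (gm d (x + σ • u)) (y + ε • u - (x + σ • u)) u -
      -cs (gm d (x + σ • u)) (y - (x + σ • u)) u + K0 * ε‖ ≤ η / 2 * ε := by
    intro σ hσ
    have ee : ∀ τ : ℝ, y - (x + σ • u) + τ • u = v + (τ - σ) • u := fun τ => by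
      rw [hv]; module
    have dd : ∀ τ ∈ Icc 0 ε, HasDerivAt
        (fun t : ℝ => cs (gm d (x + σ • u)) (y - (x + σ • u) + t • u) u - K0 * t)
        (KK (gm d (x + σ • u)) (y - (x + σ • u) + τ • u) u - K0) τ := by
      intro τ hτ
      refine (cs_deriv _ _ _ τ ?_).sub (by simpa using (hasDerivAt_id τ).const_mul K0)
      rw [ee]
      exact (G σ _ (ab σ hσ.1 hσ.2.le) (ab2 σ τ hσ.1 hσ.2.le hτ.1 hτ.2)).2.1
    have := norm_image_sub_le_of_norm_deriv_right_le_segment (C := η / 2)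
      (fun τ hτ => (dd τ hτ).continuousAt.continuousWithinAt)
      (fun τ hτ => (dd τ ⟨hτ.1, hτ.2.le⟩).hasDerivWithinAt) (fun τ hτ => by
        rw [ee]
        exact (G σ _ (ab σ hσ.1 hσ.2.le) (ab2 σ τ hσ.1 hσ.2.le hτ.1 hτ.2.le)).1.le)
      ε ⟨ε0.le, le_rfl⟩
    rw [show y + ε • u - (x + σ • u) = y - (x + σ • u) + ε • u by abel, ← norm_neg]
    simp only [zero_smul, add_zero, mul_zero, sub_zero] at this
    refine le_of_eq_of_le ?_ this
    congr 1; ring
  have cts : ∀ y' ∈ M, ContinuousOn (fun s : ℝ => d (x + s • u) y') (Icc 0 ε) := by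
    intro y' hy'
    refine (h.arc_cont hx hy' mx).congr fun s hs => ?_
    exact h.symm _ (h.mem_line (p := 0) (by simpa using hx) mx hs.1 hs.2) _ hy'
  have outer := norm_image_sub_le_of_norm_deriv_right_le_segment (C := η / 2 * ε)
    (f := fun s : ℝ => d (x + s • u) (y + ε • u) - d (x + s • u) y + K0 * ε * s)
    (((cts _ my).sub (cts _ hy)).add (by fun_prop))
    (fun σ hσ => by
      have g1 := G σ (ε - σ) (ab σ hσ.1 hσ.2.le) (ab2 σ ε hσ.1 hσ.2.le ε0.le le_rfl)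
      have g2 := G σ (0 - σ) (ab σ hσ.1 hσ.2.le) (ab2 σ 0 hσ.1 hσ.2.le le_rfl ε0.le)
      refine ((h.fv_deriv g1.2.2.1 my ?_).sub (h.fv_deriv g1.2.2.1 hy ?_)).add
        (by simpa using ((hasDerivAt_id σ).const_mul (K0 * ε)).hasDerivWithinAt)
      · rw [show y + ε • u - (x + σ • u) = v + (ε - σ) • u by rw [hv]; module]
        exact ne _ _ g1.2.1
      · rw [show y - (x + σ • u) = v + (0 - σ) • u by rw [hv]; module]
        exact ne _ _ g2.2.1) inner ε ⟨ε0.le, le_rfl⟩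
  simp only [zero_smul, add_zero, mul_zero, sub_zero, Real.norm_eq_abs] at outer
  rw [Real.dist_eq]
  have e : (d (x + ε • u) (y + ε • u) - d (x + ε • u) y - d x (y + ε • u) + d x y) / ε ^ 2 - -K0 =
      (d (x + ε • u) (y + ε • u) - d (x + ε • u) y + K0 * ε * ε -
        (d x (y + ε • u) - d x y)) / ε ^ 2 := by field_simp; ring
  rw [e, abs_div, abs_of_pos (pow_pos ε0 2), div_lt_iff₀ (pow_pos ε0 2)]
  nlinarith [mul_pos hη (pow_pos ε0 2)]

theorem PM.KK_eq (h : PM M d) {x y : ℝ × ℝ} (hx : x ∈ M) (hy : y ∈ M) (hxy : y - x ≠ 0)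
    (u : ℝ × ℝ) : KK (gm d x) (y - x) u = KK (gm d y) (y - x) u := by
  have a := h.mixed hx hy hxy u
  have b := h.mixed hy hx (by rw [← neg_sub]; exact neg_ne_zero.2 hxy) u
  have e : KK (gm d y) (x - y) u = KK (gm d y) (y - x) u := by
    have e1 : bf (gm d y) (x - y) (x - y) = bf (gm d y) (y - x) (y - x) := by
      simp only [bf, Prod.fst_sub, Prod.snd_sub]; ring
    have e2 : bf (gm d y) (x - y) u ^ 2 = bf (gm d y) (y - x) u ^ 2 := by
      simp only [bf, Prod.fst_sub, Prod.snd_sub]; ring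
    unfold KK
    rw [e1, e2]
  rw [e] at b
  refine neg_injective (tendsto_nhds_unique a (b.congr' ?_))
  filter_upwards [h.ev hx (t_sm x u), h.ev hy (t_sm y u)] with ε m1 m2
  rw [h.symm _ m2 _ m1, h.symm _ m2 _ hx, h.symm _ hy _ m1, h.symm _ hy _ hx]
  ring

def dt (g : ℝ × ℝ × ℝ) : ℝ := g.1 * g.2.2 - g.2.1 ^ 2

theorem PM.dt_pos (h : PM M d) {x : ℝ × ℝ} (hx : x ∈ M) : 0 < dt (gm d x) := by
  have p : ∀ w : ℝ × ℝ, w ≠ 0 → 0 < bf (gm d x) w w := fun w hw => by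
    rw [← h.N_sq hx]; exact pow_pos (h.N_pos dim2_prod hx hw) 2
  have a := p (1, 0) (by simp)
  simp only [bf] at a
  have b := p (-(gm d x).2.1, (gm d x).1) (by
    intro e
    have := congrArg Prod.snd e
    simp at this; linarith)
  simp only [bf] at b
  unfold dt
  nlinarith

theorem PM.dt_eq (h : PM M d) {x y : ℝ × ℝ} (hx : x ∈ M) (hy : y ∈ M) (hxy : y - x ≠ 0) :
    dt (gm d x) / N d x (y - x) ^ 3 = dt (gm d y) / N d y (y - x) ^ 3 := by
  have k := h.KK_eq hx hy hxy (-(y - x).2, (y - x).1)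
  unfold KK at k
  rw [← h.N_sqrt hx, ← h.N_sqrt hy] at k
  set v := y - x
  have uu : 0 < v.1 ^ 2 + v.2 ^ 2 := by
    by_contra hn
    apply hxy
    ext <;> simp <;> nlinarith [sq_nonneg v.1, sq_nonneg v.2]
  have e : ∀ g : ℝ × ℝ × ℝ, bf g (-v.2, v.1) (-v.2, v.1) * bf g v v - bf g v (-v.2, v.1) ^ 2 =
      (v.1 ^ 2 + v.2 ^ 2) ^ 2 * dt g := fun g => by simp only [bf, dt]; ring
  rw [e, e, mul_div_assoc, mul_div_assoc] at k
  exact mul_left_cancel₀ (pow_pos uu 2).ne' k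

end Pool.Agent.H.MP_594704_gt
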