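import Pool.Agent.H.MP_594704_gt.E

set_option autoImplicit false

namespace Pool.Agent.H.MP_594704_gt

open Set Filter Topology

section oned
variable {s : ℝ → ℝ} {A c0 c1 c2 κ : ℝ} (hc : ContinuousOn s (Icc 0 1)) (h0 : s 0 = 0)
  (hd : ∀ t ∈ Ico (0:ℝ) 1, HasDerivWithinAt s (A / (c0 + 2 * c1 * t + c2 * t ^ 2)) (Ici t) t)
  (hA : 0 ≤ A) (hp : ∀ t ∈ Icc (0:ℝ) 1, 0 < c0 + 2 * c1 * t + c2 * t ^ 2)
  (hk : c0 * c2 - c1 ^ 2 = κ * A ^ 2)

include hp hk in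
theorem lin_pos (k0 : κ ≤ 0) {t : ℝ} (ht : t ∈ Icc (0:ℝ) 1) : 0 < c0 + c1 * t := by
  have a0 : 0 < c0 := by simpa using hp 0 ⟨le_rfl, zero_le_one⟩
  by_contra hn
  push Not at hn
  have c1n : c1 < 0 := by
    by_contra h2
    push Not at h2
    nlinarith [mul_nonneg h2 ht.1]
  have e : c0 + c1 * (-c0 / c1) = 0 := by field_simp [c1n.ne]; ring
  have t0 : 0 ≤ -c0 / c1 := div_nonneg_of_nonpos (by linarith) c1n.le
  have t1 : -c0 / c1 ≤ t := by rw [div_le_iff_of_neg c1n]; linarith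
  have := hp (-c0 / c1) ⟨t0, t1.trans ht.2⟩
  set τ := -c0 / c1
  have id : c0 * (c0 + 2 * c1 * τ + c2 * τ ^ 2) = (c0 + c1 * τ) ^ 2 + κ * A ^ 2 * τ ^ 2 := by
    rw [← hk]; ring
  rw [e] at id
  nlinarith [mul_pos a0 this, mul_nonneg (sq_nonneg A) (sq_nonneg τ)]

include hc h0 hd hp hk in
theorem flat (k0 : κ = 0) : s 1 * (c0 + c1) = A := by
  have a0 : 0 < c0 := by simpa using hp 0 ⟨le_rfl, zero_le_one⟩
  have lp := fun t ht => lin_pos hp hk k0.le (t := t) ht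
  have dd : ∀ t ∈ Icc (0:ℝ) 1, HasDerivAt (fun t => A * t / (c0 + c1 * t))
      (A / (c0 + 2 * c1 * t + c2 * t ^ 2)) t := by
    intro t ht
    have := ((hasDerivAt_id t).const_mul A).div
      (((hasDerivAt_id t).const_mul c1).const_add c0) (lp t ht).ne'
    refine this.congr_deriv ?_
    have id : (c0 + c1 * t) ^ 2 = c0 * (c0 + 2 * c1 * t + c2 * t ^ 2) := by
      rw [k0] at hk; linear_combination (-t ^ 2) * hk
    have := hp t ht
    simp only [id_eq, mul_one]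
    rw [id, div_eq_div_iff (by positivity) this.ne']
    ring
  have := eq_of_has_deriv_right_eq hd (fun t ht => (dd t ⟨ht.1, ht.2.le⟩).hasDerivWithinAt) hc
    (fun t ht => (dd t ht).continuousAt.continuousWithinAt) (by simp [h0]) 1 ⟨zero_le_one, le_rfl⟩
  have l1 := lp 1 ⟨zero_le_one, le_rfl⟩
  rw [this]
  simp only [mul_one] at l1 ⊢
  field_simp

include hc h0 hd hA hp hk in
theorem hyp (k0 : κ < 0) : √(-κ) * s 1 = Real.log ((c0 + c1) / √(c0 * (c0 + 2 * c1 + c2)) +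
    √(((c0 + c1) / √(c0 * (c0 + 2 * c1 + c2))) ^ 2 - 1)) := by
  have a0 : 0 < c0 := by simpa using hp 0 ⟨le_rfl, zero_le_one⟩
  have lp := fun t ht => lin_pos hp hk k0.le (t := t) ht
  set r := √(-κ) * A with hr
  have r0 : 0 ≤ r := by positivity
  have r2 : r ^ 2 = -κ * A ^ 2 := by rw [hr, mul_pow, Real.sq_sqrt (by linarith)]
  have id : ∀ t : ℝ, (c0 + (c1 + r) * t) * (c0 + (c1 - r) * t) =
      c0 * (c0 + 2 * c1 * t + c2 * t ^ 2) := fun t => by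
    linear_combination (-t ^ 2) * hk - t ^ 2 * r2
  have p1 : ∀ t ∈ Icc (0:ℝ) 1, 0 < c0 + (c1 + r) * t := fun t ht => by
    nlinarith [lp t ht, mul_nonneg r0 ht.1]
  have p2 : ∀ t ∈ Icc (0:ℝ) 1, 0 < c0 + (c1 - r) * t := fun t ht => by
    have := mul_pos a0 (hp t ht)
    rw [← id] at this
    exact (pos_iff_pos_of_mul_pos this).1 (p1 t ht)
  have dd : ∀ t ∈ Icc (0:ℝ) 1, HasDerivAt
      (fun t => (Real.log (c0 + (c1 + r) * t) - Real.log (c0 + (c1 - r) * t)) / 2)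
      (√(-κ) * (A / (c0 + 2 * c1 * t + c2 * t ^ 2))) t := by
    intro t ht
    have := (((((hasDerivAt_id t).const_mul (c1 + r)).const_add c0).log (p1 t ht).ne').sub
      ((((hasDerivAt_id t).const_mul (c1 - r)).const_add c0).log (p2 t ht).ne')).div_const 2
    refine this.congr_deriv ?_
    simp only [id_eq, mul_one]
    rw [div_sub_div _ _ (p1 t ht).ne' (p2 t ht).ne', id, ← mul_div_assoc, ← hr]
    have := hp t ht
    field_simp
    ring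
  have := eq_of_has_deriv_right_eq (f := fun t => √(-κ) * s t)
    (fun t ht => (hd t ht).const_mul _) (fun t ht => (dd t ⟨ht.1, ht.2.le⟩).hasDerivWithinAt)
    (hc.const_smul √(-κ)) (fun t ht => (dd t ht).continuousAt.continuousWithinAt) (by simp [h0])
    1 ⟨zero_le_one, le_rfl⟩
  have q1 := p1 1 ⟨zero_le_one, le_rfl⟩
  have q2 := p2 1 ⟨zero_le_one, le_rfl⟩
  have i1 := id 1
  simp only [mul_one, one_pow] at this q1 q2 i1
  rw [this, ← i1]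
  have D0 : 0 < √((c0 + (c1 + r)) * (c0 + (c1 - r))) := Real.sqrt_pos.2 (mul_pos q1 q2)
  have D2 := Real.sq_sqrt (mul_pos q1 q2).le
  have e : ((c0 + c1) / √((c0 + (c1 + r)) * (c0 + (c1 - r)))) ^ 2 - 1 =
      (r / √((c0 + (c1 + r)) * (c0 + (c1 - r)))) ^ 2 := by
    rw [div_pow, div_pow, D2]
    field_simp
    ring
  rw [e, Real.sqrt_sq (div_nonneg r0 D0.le), ← add_div, Real.log_div (by linarith) D0.ne',
    Real.log_sqrt (mul_pos q1 q2).le, Real.log_mul q1.ne' q2.ne', add_assoc]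
  ring

include hc h0 hd hp hk in
theorem ell (k0 : 0 < κ) (hA : 0 < A) : s 1 ≤ Real.pi / √κ := by
  have a0 : 0 < c0 := by simpa using hp 0 ⟨le_rfl, zero_le_one⟩
  have s0 : 0 < √κ := Real.sqrt_pos.2 k0
  have s2 : √κ ^ 2 = κ := Real.sq_sqrt k0.le
  have c20 : 0 < c2 := by
    by_contra hn
    push Not at hn
    nlinarith [mul_nonneg a0.le (neg_nonneg.2 hn), mul_pos k0 (pow_pos hA 2), sq_nonneg c1]
  have dd : ∀ t ∈ Icc (0:ℝ) 1, HasDerivAt
      (fun t => (Real.arctan ((c1 + c2 * t) / (√κ * A)) - Real.arctan (c1 / (√κ * A))) / √κ)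
      (A / (c0 + 2 * c1 * t + c2 * t ^ 2)) t := by
    intro t ht
    have := ((((((hasDerivAt_id t).const_mul c2).const_add c1).div_const (√κ * A)).arctan).sub_const
      (Real.arctan (c1 / (√κ * A)))).div_const √κ
    refine this.congr_deriv ?_
    simp only [id_eq, mul_one]
    have e : 1 + ((c1 + c2 * t) / (√κ * A)) ^ 2 =
        c2 * (c0 + 2 * c1 * t + c2 * t ^ 2) / (√κ * A) ^ 2 := by
      field_simp
      rw [s2]
      linear_combination -hk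
    have := hp t ht
    rw [e]
    field_simp
  have := eq_of_has_deriv_right_eq hd (fun t ht => (dd t ⟨ht.1, ht.2.le⟩).hasDerivWithinAt) hc
    (fun t ht => (dd t ht).continuousAt.continuousWithinAt) (by simp [h0]) 1 ⟨zero_le_one, le_rfl⟩
  rw [this]
  refine div_le_div_of_nonneg_right ?_ s0.le
  linarith [Real.arctan_lt_pi_div_two ((c1 + c2 * 1) / (√κ * A)),
    Real.neg_pi_div_two_lt_arctan (c1 / (√κ * A))]

end oned

variable {M : Set (ℝ × ℝ)} {d : ℝ × ℝ → ℝ × ℝ → ℝ}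

noncomputable def dl (d : ℝ × ℝ → ℝ × ℝ → ℝ) (x : ℝ × ℝ) : ℝ := dt (gm d x) ^ (-(1 / 3) : ℝ)

noncomputable def hm (d : ℝ × ℝ → ℝ × ℝ → ℝ) (x : ℝ × ℝ) : ℝ × ℝ × ℝ := dl d x ^ 2 • gm d x

theorem PM.dl_pos (h : PM M d) {x : ℝ × ℝ} (hx : x ∈ M) : 0 < dl d x :=
  Real.rpow_pos_of_pos (h.dt_pos hx) _

theorem PM.dl_cube (h : PM M d) {x : ℝ × ℝ} (hx : x ∈ M) : dl d x ^ 3 * dt (gm d x) = 1 := by
  have := h.dt_pos hx
  unfold dl
  rw [← Real.rpow_natCast, ← Real.rpow_mul this.le]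
  norm_num
  rw [Real.rpow_neg_one, inv_mul_cancel₀ this.ne']

theorem bf_hm (x a b : ℝ × ℝ) : bf (hm d x) a b = dl d x ^ 2 * bf (gm d x) a b := by
  simp only [bf, hm, Prod.smul_fst, Prod.smul_snd, smul_eq_mul]; ring

theorem PM.dt_hm (h : PM M d) {x : ℝ × ℝ} (hx : x ∈ M) : dt (hm d x) = dl d x := by
  have := h.dl_cube hx
  simp only [dt, hm, Prod.smul_fst, Prod.smul_snd, smul_eq_mul] at this ⊢
  linear_combination (dl d x) * this

theorem PM.hm_eq (h : PM M d) {x y : ℝ × ℝ} (hx : x ∈ M) (hy : y ∈ M) :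
    bf (hm d x) (y - x) (y - x) = bf (hm d y) (y - x) (y - x) := by
  by_cases hxy : y - x = 0
  · simp [hxy, bf]
  have k := h.dt_eq hx hy hxy
  have nx := h.N_pos dim2_prod hx hxy
  have ny := h.N_pos dim2_prod hy hxy
  have cx := h.dl_cube hx
  have cy := h.dl_cube hy
  rw [div_eq_div_iff (by positivity) (by positivity)] at k
  have e : (dl d x * N d x (y - x)) ^ 3 = (dl d y * N d y (y - x)) ^ 3 := by
    linear_combination (-(dl d x ^ 3 * dl d y ^ 3)) * k + (dl d y ^ 3 * N d y (y - x) ^ 3) * cx -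
      (dl d x ^ 3 * N d x (y - x) ^ 3) * cy
  have e2 := (pow_left_inj₀ (mul_pos (h.dl_pos hx) nx).le (mul_pos (h.dl_pos hy) ny).le
    (by norm_num)).1 e
  rw [bf_hm, bf_hm, ← h.N_sq hx, ← h.N_sq hy, ← mul_pow, ← mul_pow, e2]

theorem PM.hm_tendsto (h : PM M d) {ι : Type*} {l : Filter ι} {y : ι → ℝ × ℝ} {x : ℝ × ℝ}
    (hx : x ∈ M) (hy : Tendsto y l (𝓝 x)) : Tendsto (fun i => hm d (y i)) l (𝓝 (hm d x)) := by
  have t := h.gm_tendsto hx hy
  have c : Continuous dt := by unfold dt; fun_prop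
  have t2 := ((c.tendsto _).comp t).rpow_const (p := -(1 / 3)) (Or.inl (h.dt_pos hx).ne')
  exact (t2.pow 2).smul t

def qf (H : ℝ × ℝ × ℝ) (α β γ : ℝ) (x : ℝ × ℝ) : ℝ × ℝ × ℝ :=
  (H.1 - 2 * α * x.2 + γ * x.2 ^ 2, H.2.1 + α * x.1 - β * x.2 - γ * x.1 * x.2,
    H.2.2 + 2 * β * x.1 + γ * x.1 ^ 2)

theorem ev_ne (a c : ℝ) (hc : c ≠ 0) : ∀ᶠ ε in 𝓝[>] (0:ℝ), a + ε * c ≠ 0 := by
  by_cases ha : a = 0
  · filter_upwards [self_mem_nhdsWithin] with ε hε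
    have : 0 < ε := hε
    rw [ha, zero_add]
    exact mul_ne_zero this.ne' hc
  · exact ((t_id.mul_const c).const_add a).eventually_ne (by simpa using ha)

theorem PM.quad (h : PM M d) (h0 : (0 : ℝ × ℝ) ∈ M) :
    ∃ α β γ : ℝ, ∀ x ∈ M, hm d x = qf (hm d 0) α β γ x := by
  obtain ⟨ρ, ⟨m1, m2⟩, ρ0⟩ := (((h.ev h0 (t_sm 0 (1, 0))).and (h.ev h0 (t_sm 0 (0, 1)))).and
    self_mem_nhdsWithin).exists
  have ρ0 : 0 < ρ := ρ0
  have m1 : ((ρ, 0) : ℝ × ℝ) ∈ M := by simpa using m1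
  have m2 : ((0, ρ) : ℝ × ℝ) ∈ M := by simpa using m2
  have r1 := h.hm_eq h0 m1
  have r2 := h.hm_eq h0 m2
  have r3 := h.hm_eq m1 m2
  set H0 := hm d 0 with hH0
  set H1 := hm d (ρ, 0) with hH1
  set H2 := hm d (0, ρ) with hH2
  simp only [bf, Prod.fst_sub, Prod.snd_sub, Prod.fst_zero, Prod.snd_zero] at r1 r2 r3
  have s1 : H0.1 = H1.1 := mul_right_cancel₀ (pow_pos ρ0 2).ne' (by linarith)
  have s2 : H0.2.2 = H2.2.2 := mul_right_cancel₀ (pow_pos ρ0 2).ne' (by linarith)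
  have s3 : H1.1 - 2 * H1.2.1 + H1.2.2 = H2.1 - 2 * H2.2.1 + H2.2.2 :=
    mul_right_cancel₀ (pow_pos ρ0 2).ne' (by linarith)
  set α := (H1.2.1 - H0.2.1) / ρ with hα
  set β := (H0.2.1 - H2.2.1) / ρ with hβ
  set γ := (H1.2.2 - H0.2.2 - 2 * β * ρ) / ρ ^ 2 with hγ
  have aρ : α * ρ = H1.2.1 - H0.2.1 := by rw [hα]; field_simp
  have bρ : β * ρ = H0.2.1 - H2.2.1 := by rw [hβ]; field_simp
  have gρ : γ * ρ ^ 2 = H1.2.2 - H0.2.2 - 2 * β * ρ := by rw [hγ]; field_simp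
  have q0 : hm d 0 = qf H0 α β γ 0 := by simp [qf, hH0]
  have q1 : hm d (ρ, 0) = qf H0 α β γ (ρ, 0) := by
    refine Prod.ext ?_ (Prod.ext ?_ ?_) <;> simp only [qf, ← hH1] <;> linarith
  have q2 : hm d (0, ρ) = qf H0 α β γ (0, ρ) := by
    refine Prod.ext ?_ (Prod.ext ?_ ?_) <;> simp only [qf, ← hH2] <;> linarith
  have z : ∀ a ∈ M, hm d a = qf H0 α β γ a → ∀ x ∈ M,
      bf (hm d x) (x - a) (x - a) - bf (qf H0 α β γ x) (x - a) (x - a) = 0 := by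
    intro a ha e x hx
    rw [← h.hm_eq ha hx, e]
    simp only [bf, qf, Prod.fst_sub, Prod.snd_sub]; ring
  have gen : ∀ x ∈ M, x.1 ≠ 0 → x.2 ≠ 0 → x.1 + x.2 - ρ ≠ 0 → hm d x = qf H0 α β γ x := by
    intro x hx a1 a2 a3
    have z0 := z _ h0 q0 x hx
    have z1 := z _ m1 q1 x hx
    have z2 := z _ m2 q2 x hx
    generalize qf H0 α β γ x = Q at z0 z1 z2 ⊢
    generalize hm d x = H at z0 z1 z2 ⊢
    simp only [bf, Prod.fst_sub, Prod.snd_sub, Prod.fst_zero, Prod.snd_zero, sub_zero] at z0 z1 z2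
    have nz : ρ ^ 2 * x.1 * x.2 * (x.1 + x.2 - ρ) ≠ 0 :=
      mul_ne_zero (mul_ne_zero (mul_ne_zero (pow_pos ρ0 2).ne' a1) a2) a3
    have w : ∀ w1 w2 : ℝ, (H.1 - Q.1) * w1 ^ 2 + 2 * (H.2.1 - Q.2.1) * w1 * w2 +
        (H.2.2 - Q.2.2) * w2 ^ 2 = 0 := by
      intro w1 w2
      refine mul_left_cancel₀ nz ?_
      linear_combination
        (-(w1 * x.2 - w2 * (x.1 - ρ)) * (w1 * (x.2 - ρ) - w2 * x.1) * (x.1 + x.2 - ρ)) * z0 +
        ((w1 * x.2 - w2 * x.1) * (w1 * (x.2 - ρ) - w2 * x.1) * x.1) * z1 +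
        ((w1 * x.2 - w2 * x.1) * (w1 * x.2 - w2 * (x.1 - ρ)) * x.2) * z2
    have w1 := w 1 0
    have w2 := w 0 1
    have w3 := w 1 1
    refine Prod.ext ?_ (Prod.ext ?_ ?_) <;> linarith
  refine ⟨α, β, γ, fun x hx => ?_⟩
  have t := t_sm x ((1, 1) : ℝ × ℝ)
  have cq : Continuous (qf H0 α β γ) := by unfold qf; fun_prop
  refine tendsto_nhds_unique (h.hm_tendsto hx t) (((cq.tendsto x).comp t).congr' ?_)
  filter_upwards [h.ev hx t, ev_ne x.1 1 one_ne_zero, ev_ne x.2 1 one_ne_zero,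
    ev_ne (x.1 + x.2 - ρ) 2 two_ne_zero] with ε m a1 a2 a3
  refine (gen _ m (by simpa using a1) (by simpa using a2) ?_).symm
  intro e
  apply a3
  simp at e
  linarith

end Pool.Agent.H.MP_594704_gt
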