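import Pool.Agent.H.MP_594704_gt.F

set_option autoImplicit false

namespace Pool.Agent.H.MP_594704_gt

open Set Filter Topology

variable {M : Set (ℝ × ℝ)} {d : ℝ × ℝ → ℝ × ℝ → ℝ}

def om (H : ℝ × ℝ × ℝ) (α β γ : ℝ) (x y : ℝ × ℝ) : ℝ :=
  dt H + (β * H.1 - α * H.2.1) * (x.1 + y.1) + (β * H.2.1 - α * H.2.2) * (x.2 + y.2) +
    (γ * H.1 - α ^ 2) * (x.1 * y.1) + (γ * H.2.2 - β ^ 2) * (x.2 * y.2) +
    (γ * H.2.1 - α * β) * (x.1 * y.2 + x.2 * y.1)

def kp (H : ℝ × ℝ × ℝ) (α β γ : ℝ) : ℝ :=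
  γ * dt H - α ^ 2 * H.2.2 + 2 * α * β * H.2.1 - β ^ 2 * H.1

theorem PM.segdata (h : PM M d) {H : ℝ × ℝ × ℝ} {α β γ : ℝ} (hq : ∀ x ∈ M, hm d x = qf H α β γ x)
    {x y : ℝ × ℝ} (hx : x ∈ M) (hy : y ∈ M) :
    ∃ (s : ℝ → ℝ) (A c1 c2 : ℝ), ContinuousOn s (Icc 0 1) ∧ s 0 = 0 ∧ s 1 = d x y ∧
      (∀ t ∈ Ico (0:ℝ) 1, HasDerivWithinAt s (A / (om H α β γ x x + 2 * c1 * t + c2 * t ^ 2))
        (Ici t) t) ∧ 0 ≤ A ∧ A ^ 2 = bf (qf H α β γ x) (y - x) (y - x) ∧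
      (∀ t ∈ Icc (0:ℝ) 1, 0 < om H α β γ x x + 2 * c1 * t + c2 * t ^ 2) ∧
      om H α β γ x x * c2 - c1 ^ 2 = kp H α β γ * A ^ 2 ∧
      om H α β γ x x + c1 = om H α β γ x y ∧ om H α β γ x x + 2 * c1 + c2 = om H α β γ y y ∧
      (x ≠ y → 0 < A) := by
  have ey : x + (1:ℝ) • (y - x) = y := by simp
  have m : ∀ t ∈ Icc (0:ℝ) 1, x + t • (y - x) ∈ M := fun t ht =>
    h.mem_line (p := 0) (r := 1) (by simpa using hx) (by rwa [ey]) ht.1 ht.2
  have A2 : (dl d x * N d x (y - x)) ^ 2 = bf (qf H α β γ x) (y - x) (y - x) := by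
    rw [← hq x hx, bf_hm, mul_pow, h.N_sq hx]
  have dlq : ∀ t ∈ Icc (0:ℝ) 1, dl d (x + t • (y - x)) =
      om H α β γ x x + 2 * (om H α β γ x y - om H α β γ x x) * t +
        (om H α β γ y y - 2 * om H α β γ x y + om H α β γ x x) * t ^ 2 := by
    intro t ht
    rw [← h.dt_hm (m t ht), hq _ (m t ht)]
    simp only [dt, qf, om, Prod.fst_add, Prod.snd_add, Prod.smul_fst, Prod.smul_snd, smul_eq_mul,
      Prod.fst_sub, Prod.snd_sub]
    ring
  refine ⟨fun t => d x (x + t • (y - x)), dl d x * N d x (y - x),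
    om H α β γ x y - om H α β γ x x, om H α β γ y y - 2 * om H α β γ x y + om H α β γ x x,
    h.arc_cont hx hx (by rwa [ey]), by simp [h.refl x hx], by simp, fun t ht => ?_,
    mul_nonneg (h.dl_pos hx).le (h.N_nonneg dim2_prod hx _), A2,
    fun t ht => dlq t ht ▸ h.dl_pos (m t ht), ?_, by ring, by ring, fun hxy =>
      mul_pos (h.dl_pos hx) (h.N_pos dim2_prod hx (sub_ne_zero.2 hxy.symm))⟩
  · have mt := m t ⟨ht.1, ht.2.le⟩
    refine (h.arc_deriv dim2_prod hx ht.1 mt).congr_deriv ?_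
    rw [← dlq t ⟨ht.1, ht.2.le⟩, eq_div_iff (h.dl_pos mt).ne']
    have e : (N d (x + t • (y - x)) (y - x) * dl d (x + t • (y - x))) ^ 2 =
        (dl d x * N d x (y - x)) ^ 2 := by
      rw [A2, mul_pow, h.N_sq mt, mul_comm, ← bf_hm, hq _ mt]
      simp only [bf, qf, Prod.fst_add, Prod.snd_add, Prod.smul_fst, Prod.smul_snd, smul_eq_mul,
        Prod.fst_sub, Prod.snd_sub]
      ring
    exact (pow_left_inj₀ (mul_nonneg (h.N_nonneg dim2_prod mt _) (h.dl_pos mt).le)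
      (mul_nonneg (h.dl_pos hx).le (h.N_nonneg dim2_prod hx _)) two_ne_zero).1 e
  · rw [A2]
    simp only [bf, qf, om, kp, dt, Prod.fst_sub, Prod.snd_sub]
    ring

theorem PM.plane (h : PM M d) (h0 : (0 : ℝ × ℝ) ∈ M) : ∃ (κ : ℝ) (a : ℝ × ℝ → ℝ) (l1 l2 : ℝ),
    (∀ x, a x = 1 + l1 * x.1 + l2 * x.2) ∧ κ ≤ 0 ∧ (∀ x ∈ M, 0 < a x) ∧
    (∀ x ∈ M, 0 < a x * a x + κ * bf (gm d 0) x x) ∧
    (∀ (v : ℝ × ℝ) (t : ℝ), t • v ∈ M → N d (t • v) v *
      (a (t • v) * a (t • v) + κ * bf (gm d 0) (t • v) (t • v)) = N d 0 v) ∧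
    (κ = 0 → ∀ x ∈ M, ∀ y ∈ M, (d x y * (a x * a y)) ^ 2 =
      bf (gm d 0) (a x • y - a y • x) (a x • y - a y • x)) ∧
    (κ < 0 → ∀ x ∈ M, ∀ y ∈ M, √(-κ) * d x y =
      Real.log ((a x * a y + κ * bf (gm d 0) x y) /
        √((a x * a x + κ * bf (gm d 0) x x) * (a y * a y + κ * bf (gm d 0) y y)) +
      √(((a x * a y + κ * bf (gm d 0) x y) /
        √((a x * a x + κ * bf (gm d 0) x x) * (a y * a y + κ * bf (gm d 0) y y))) ^ 2 - 1))) := by
  obtain ⟨α, β, γ, hq⟩ := h.quad h0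
  set H := hm d 0 with hH
  set δ := dl d 0 with hδ
  have δ0 : 0 < δ := h.dl_pos h0
  have dH : dt H = δ := h.dt_hm h0
  have bH : ∀ x y, bf H x y = δ ^ 2 * bf (gm d 0) x y := fun x y => bf_hm 0 x y
  set κ := kp H α β γ with hκ
  let a : ℝ × ℝ → ℝ := fun x =>
    1 + (β * H.1 - α * H.2.1) / δ * x.1 + (β * H.2.1 - α * H.2.2) / δ * x.2
  have oa : ∀ x, om H α β γ 0 x = δ * a x := fun x => by
    simp only [om, a, dH, Prod.fst_zero, Prod.snd_zero]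
    field_simp
    ring
  have oW : ∀ x y, om H α β γ x y = δ * (a x * a y + κ * bf (gm d 0) x y) := fun x y => by
    refine mul_left_cancel₀ δ0.ne' ?_
    have : dt H * om H α β γ x y = om H α β γ 0 x * om H α β γ 0 y + κ * bf H x y := by
      simp only [om, hκ, kp, dt, bf, Prod.fst_zero, Prod.snd_zero]; ring
    rw [dH, oa, oa, bH] at this
    rw [this]; ring
  have k0 : κ ≤ 0 := by
    by_contra hn
    push Not at hn
    obtain ⟨t, t0, mt, e⟩ := h.ray 0 h0 (1, 0) (by simp) (Real.pi / √κ + 1) (by positivity)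
    obtain ⟨s, A, c1, c2, a1, a2, a3, a4, -, -, a7, a8, -, -, a11⟩ := h.segdata hq h0 mt
    have := ell a1 a2 a4 a7 a8 hn (a11 (by
      intro e
      have := congrArg Prod.fst e
      simp at this; linarith))
    linarith
  have Wp : ∀ x ∈ M, 0 < a x * a x + κ * bf (gm d 0) x x := by
    intro x hx
    obtain ⟨s, A, c1, c2, -, -, -, -, -, -, a7, -, -, -, -⟩ := h.segdata hq hx hx
    have := a7 0 ⟨le_rfl, zero_le_one⟩
    rw [oW] at this
    simp only [mul_zero, add_zero, ne_eq, OfNat.ofNat_ne_zero, not_false_eq_true, zero_pow] at this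
    exact (pos_iff_pos_of_mul_pos this).1 δ0
  refine ⟨κ, a, _, _, fun x => rfl, k0, fun x hx => ?_, Wp, fun v t m => ?_, fun e x hx y hy => ?_,
    fun e x hx y hy => ?_⟩
  · obtain ⟨s, A, c1, c2, -, -, -, -, -, -, a7, a8, a9, -, -⟩ := h.segdata hq h0 hx
    have := lin_pos a7 a8 k0 (t := 1) ⟨zero_le_one, le_rfl⟩
    rw [mul_one, a9, oa] at this
    exact (pos_iff_pos_of_mul_pos this).1 δ0
  · have e1 : dl d (t • v) = δ * (a (t • v) * a (t • v) + κ * bf (gm d 0) (t • v) (t • v)) := by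
      rw [← oW, ← h.dt_hm m, hq _ m]
      simp only [dt, qf, om]; ring
    have e2 : (N d (t • v) v * dl d (t • v)) ^ 2 = (δ * N d 0 v) ^ 2 := by
      rw [mul_pow, h.N_sq m, mul_comm, ← bf_hm, hq _ m, mul_pow, h.N_sq h0, ← bH]
      simp only [bf, qf, Prod.smul_fst, Prod.smul_snd, smul_eq_mul]; ring
    have e3 := (pow_left_inj₀ (mul_nonneg (h.N_nonneg dim2_prod m _) (h.dl_pos m).le)
      (mul_nonneg δ0.le (h.N_nonneg dim2_prod h0 _)) two_ne_zero).1 e2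
    refine mul_left_cancel₀ δ0.ne' ?_
    rw [← e3, e1]; ring
  · obtain ⟨s, A, c1, c2, a1, a2, a3, a4, -, a6, a7, a8, a9, -, -⟩ := h.segdata hq hx hy
    have f := flat a1 a2 a4 a7 a8 e
    rw [a3, a9, oW, e, zero_mul, add_zero] at f
    have id : dt H ^ 2 * bf (qf H α β γ x) (y - x) (y - x) =
        bf H (om H α β γ 0 x • y - om H α β γ 0 y • x) (om H α β γ 0 x • y - om H α β γ 0 y • x) +
          κ * dt H * (x.1 * y.2 - x.2 * y.1) ^ 2 := by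
      simp only [bf, qf, om, hκ, kp, dt, Prod.smul_fst, Prod.smul_snd, smul_eq_mul,
        Prod.fst_sub, Prod.snd_sub, Prod.fst_zero, Prod.snd_zero]
      ring
    rw [e, oa, oa, mul_smul, mul_smul, ← smul_sub, bf_smul, bH, dH, ← a6, ← f] at id
    refine mul_left_cancel₀ (pow_pos δ0 4).ne' ?_
    linear_combination id
  · obtain ⟨s, A, c1, c2, a1, a2, a3, a4, a5, -, a7, a8, a9, a10, -⟩ := h.segdata hq hx hy
    have f := hyp a1 a2 a4 a5 a7 a8 e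
    rw [a3, a9, a10, oW, oW, oW] at f
    have e2 : √(δ * (a x * a x + κ * bf (gm d 0) x x) * (δ * (a y * a y + κ * bf (gm d 0) y y))) =
        δ * √((a x * a x + κ * bf (gm d 0) x x) * (a y * a y + κ * bf (gm d 0) y y)) := by
      rw [show δ * (a x * a x + κ * bf (gm d 0) x x) * (δ * (a y * a y + κ * bf (gm d 0) y y)) =
        δ ^ 2 * ((a x * a x + κ * bf (gm d 0) x x) * (a y * a y + κ * bf (gm d 0) y y)) by ring,
        Real.sqrt_mul (sq_nonneg δ), Real.sqrt_sq δ0.le]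
    rw [e2, mul_div_mul_left _ _ δ0.ne'] at f
    exact f

end Pool.Agent.H.MP_594704_gt
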