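import Pool.Agent.H.MP_594704_gt.G

set_option autoImplicit false

namespace Pool.Agent.H.MP_594704_gt

open Set Filter Topology

variable {E : Type*} [NormedAddCommGroup E] [NormedSpace ℝ E] {M : Set E} {d : E → E → ℝ}

theorem N_pull (v w : E) (a u : ℝ × ℝ) :
    N (fun a b => d (emb 0 v w a) (emb 0 v w b)) a u = N d (emb 0 v w a) (emb 0 v w u) := by
  unfold N
  congr 1
  funext ε
  simp only [rr, emb_line]
  simp [emb]

theorem emb_zero (v w : E) : emb 0 v w 0 = 0 := by simp [emb]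

theorem emb_lin (v w : E) (s t : ℝ) (a b : ℝ × ℝ) :
    emb 0 v w (s • a + t • b) = s • emb 0 v w a + t • emb 0 v w b := by
  simp only [emb, Prod.fst_add, Prod.snd_add, Prod.smul_fst, Prod.smul_snd, smul_eq_mul]
  module

theorem emb_smul (v w : E) (s : ℝ) (a : ℝ × ℝ) : emb 0 v w (s • a) = s • emb 0 v w a := by
  simpa using emb_lin v w s 0 a a

noncomputable def BB (d : E → E → ℝ) (X Y : E) : ℝ := (N d 0 (X + Y) ^ 2 - N d 0 (X - Y) ^ 2) / 4

theorem PM.G_plane (h : PM M d) (h0 : (0 : E) ∈ M) {v w : E} (hi : Ind v w) (a : ℝ × ℝ) :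
    N d 0 (emb 0 v w a) ^ 2 = bf (gm (fun a b => d (emb 0 v w a) (emb 0 v w b)) 0) a a := by
  rw [← (h.pull 0 hi).N_sq (x := 0) (by simpa [emb_zero] using h0), N_pull, emb_zero]

theorem PM.B_plane (h : PM M d) (h0 : (0 : E) ∈ M) {v w : E} (hi : Ind v w) (a b : ℝ × ℝ) :
    bf (gm (fun a b => d (emb 0 v w a) (emb 0 v w b)) 0) a b =
      BB d (emb 0 v w a) (emb 0 v w b) := by
  have e1 : emb 0 v w a + emb 0 v w b = emb 0 v w (a + b) := by
    simpa using (emb_lin v w 1 1 a b).symm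
  have e2 : emb 0 v w a - emb 0 v w b = emb 0 v w (a - b) := by
    simpa [sub_eq_add_neg] using (emb_lin v w 1 (-1) a b).symm
  rw [BB, e1, e2, h.G_plane h0 hi, h.G_plane h0 hi]
  simp only [bf, Prod.fst_add, Prod.snd_add, Prod.fst_sub, Prod.snd_sub]
  ring

theorem ex_plane (hd : Dim2 E) {v0 : E} (hv : v0 ≠ 0) (X Y : E) :
    ∃ (v w : E) (a b : ℝ × ℝ), Ind v w ∧ emb 0 v w a = X ∧ emb 0 v w b = Y := by
  by_cases hi : Ind X Y
  · exact ⟨X, Y, (1, 0), (0, 1), hi, by simp [emb], by simp [emb]⟩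
  have : ∃ (Z : E) (s t : ℝ), X = s • Z ∧ Y = t • Z := by
    unfold Ind at hi
    push Not at hi
    obtain ⟨α, β, e, ne⟩ := hi
    by_cases hα : α = 0
    · have hβ := ne hα
      rw [hα, zero_smul, zero_add] at e
      exact ⟨X, 1, 0, by simp, by simpa using (smul_eq_zero.1 e).resolve_left hβ⟩
    · refine ⟨Y, -β / α, 1, ?_, by simp⟩
      have : α • X = -β • Y := by rw [neg_smul]; exact eq_neg_of_add_eq_zero_left e
      rw [div_eq_inv_mul, mul_smul, ← this, smul_smul, inv_mul_cancel₀ hα, one_smul]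
  obtain ⟨Z, s, t, rfl, rfl⟩ := this
  by_cases hZ : Z = 0
  · obtain ⟨w, hw⟩ := hd v0 hv
    exact ⟨v0, w, 0, 0, hw, by simp [emb, hZ], by simp [emb, hZ]⟩
  · obtain ⟨w, hw⟩ := hd Z hZ
    exact ⟨Z, w, (s, 0), (t, 0), hw, by simp [emb], by simp [emb]⟩

section
variable (h : PM M d) (h0 : (0 : E) ∈ M) (hd : Dim2 E) {v0 : E} (hv : v0 ≠ 0)
include h h0 hd

theorem BB_self (X : E) : BB d X X = N d 0 X ^ 2 := by
  rw [BB, sub_self, h.N_zero hd h0, ← two_smul ℝ X, h.N_smul_pos hd h0 X two_pos]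
  ring

theorem BB_symm (X Y : E) : BB d X Y = BB d Y X := by
  rw [BB, BB, add_comm X Y, ← neg_sub Y X, h.N_neg hd h0]

include hv

theorem BB_smul (c : ℝ) (X Y : E) : BB d (c • X) Y = c * BB d X Y := by
  obtain ⟨v, w, a, b, hi, rfl, rfl⟩ := ex_plane hd hv X Y
  rw [← emb_smul, ← h.B_plane h0 hi, ← h.B_plane h0 hi]
  simp only [bf, Prod.smul_fst, Prod.smul_snd, smul_eq_mul]; ring

theorem G_par (X Y : E) : N d 0 (X + Y) ^ 2 + N d 0 (X - Y) ^ 2 =
    2 * N d 0 X ^ 2 + 2 * N d 0 Y ^ 2 := by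
  obtain ⟨v, w, a, b, hi, rfl, rfl⟩ := ex_plane hd hv X Y
  have e1 : emb 0 v w a + emb 0 v w b = emb 0 v w (a + b) := by
    simpa using (emb_lin v w 1 1 a b).symm
  have e2 : emb 0 v w a - emb 0 v w b = emb 0 v w (a - b) := by
    simpa [sub_eq_add_neg] using (emb_lin v w 1 (-1) a b).symm
  rw [e1, e2, h.G_plane h0 hi, h.G_plane h0 hi, h.G_plane h0 hi, h.G_plane h0 hi]
  simp only [bf, Prod.fst_add, Prod.snd_add, Prod.fst_sub, Prod.snd_sub]
  ring

theorem BB_add (X Y Z : E) : BB d (X + Y) Z = BB d X Z + BB d Y Z := by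
  have k := BB_smul h h0 hd hv (1 / 2) (X + Y) Z
  have p1 := G_par h h0 hd hv ((1 / 2 : ℝ) • (X + Y) + Z) ((1 / 2 : ℝ) • (X - Y))
  have p2 := G_par h h0 hd hv ((1 / 2 : ℝ) • (X + Y) - Z) ((1 / 2 : ℝ) • (X - Y))
  rw [show (1 / 2 : ℝ) • (X + Y) + Z + (1 / 2 : ℝ) • (X - Y) = X + Z by module,
    show (1 / 2 : ℝ) • (X + Y) + Z - (1 / 2 : ℝ) • (X - Y) = Y + Z by module] at p1
  rw [show (1 / 2 : ℝ) • (X + Y) - Z + (1 / 2 : ℝ) • (X - Y) = X - Z by module,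
    show (1 / 2 : ℝ) • (X + Y) - Z - (1 / 2 : ℝ) • (X - Y) = Y - Z by module] at p2
  unfold BB at k ⊢
  linarith

end

def PD (M : Set E) (d : E → E → ℝ) (S : Set E) (κ : ℝ) (a : E → ℝ) : Prop :=
  κ ≤ 0 ∧ (∀ x ∈ S, x ∈ M → 0 < a x) ∧ (∀ x ∈ S, x ∈ M → 0 < a x * a x + κ * BB d x x) ∧
    (κ = 0 → ∀ x ∈ S, x ∈ M → ∀ y ∈ S, y ∈ M → (d x y * (a x * a y)) ^ 2 =
      BB d (a x • y - a y • x) (a x • y - a y • x)) ∧
    (κ < 0 → ∀ x ∈ S, x ∈ M → ∀ y ∈ S, y ∈ M → √(-κ) * d x y =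
      Real.log ((a x * a y + κ * BB d x y) /
        √((a x * a x + κ * BB d x x) * (a y * a y + κ * BB d y y)) +
      √(((a x * a y + κ * BB d x y) /
        √((a x * a x + κ * BB d x x) * (a y * a y + κ * BB d y y))) ^ 2 - 1)))

def LD (M : Set E) (d : E → E → ℝ) (X : E) (κ l : ℝ) : Prop :=
  ∀ t : ℝ, t • X ∈ M → N d (t • X) X * ((1 + t * l) ^ 2 + κ * t ^ 2 * N d 0 X ^ 2) = N d 0 X

theorem LD_uniq (h : PM M d) (h0 : (0 : E) ∈ M) (hd : Dim2 E) {X : E} (hX : X ≠ 0)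
    {κ l κ' l' : ℝ} (a : LD M d X κ l) (b : LD M d X κ' l') : κ = κ' ∧ l = l' := by
  obtain ⟨τ, τ0, m1, m2⟩ := h.exR h0 X
  rw [zero_add] at m1 m2
  have e1 := mul_left_cancel₀ (h.N_pos hd m1 hX).ne' ((a _ m1).trans (b _ m1).symm)
  have e2 := mul_left_cancel₀ (h.N_pos hd m2 hX).ne' ((a _ m2).trans (b _ m2).symm)
  have l1 : l = l' := mul_left_cancel₀ τ0.ne' (by linarith)
  refine ⟨?_, l1⟩
  rw [l1] at e1
  exact mul_right_cancel₀ (mul_pos (pow_pos τ0 2) (pow_pos (h.N_pos hd h0 hX) 2)).ne' (by linarith)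

theorem PM.planeE (h : PM M d) (h0 : (0 : E) ∈ M) (hd : Dim2 E) {v w : E} (hi : Ind v w) :
    ∃ (κ : ℝ) (l : ℝ × ℝ → ℝ), l 0 = 0 ∧ (∀ u, LD M d (emb 0 v w u) κ (l u)) ∧
      ∀ a : E → ℝ, (∀ u, a (emb 0 v w u) = 1 + l u) → PD M d (range (emb 0 v w)) κ a := by
  obtain ⟨κ, a, l1, l2, ea, k0, p1, p2, p3, p4, p5⟩ :=
    (h.pull 0 hi).plane (by simpa [emb_zero] using h0)
  simp only [h.B_plane h0 hi, N_pull, emb_zero] at p2 p3 p4 p5
  refine ⟨κ, fun u => l1 * u.1 + l2 * u.2, by simp, fun u t m => ?_, fun b hb => ?_⟩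
  · have := p3 u t (by show emb 0 v w (t • u) ∈ M; rwa [emb_smul])
    rw [BB_self h h0 hd, emb_smul, h.N_smul hd h0, mul_pow, sq_abs, ea] at this
    simp only [Prod.smul_fst, Prod.smul_snd, smul_eq_mul] at this
    linear_combination this
  · have eb : ∀ u, b (emb 0 v w u) = a u := fun u => by rw [hb, ea, add_assoc]
    refine ⟨k0, ?_, ?_, fun e => ?_, fun e => ?_⟩
    · rintro _ ⟨x, rfl⟩ m
      rw [eb]; exact p1 x m
    · rintro _ ⟨x, rfl⟩ m
      rw [eb]; exact p2 x m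
    · rintro _ ⟨x, rfl⟩ m _ ⟨y, rfl⟩ m'
      have := p4 e x m y m'
      rw [show a x • y - a y • x = a x • y + (-a y) • x by module, emb_lin] at this
      rw [eb, eb, this, neg_smul, ← sub_eq_add_neg]
    · rintro _ ⟨x, rfl⟩ m _ ⟨y, rfl⟩ m'
      rw [eb, eb]; exact p5 e x m y m'

theorem PM.global (h : PM M d) (h0 : (0 : E) ∈ M) (hd : Dim2 E) {v0 : E} (hv : v0 ≠ 0) :
    ∃ (κ : ℝ) (a : E → ℝ), PD M d univ κ a := by
  classical
  obtain ⟨w0, hw0⟩ := hd v0 hv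
  obtain ⟨κ, l0, -, L0, -⟩ := h.planeE h0 hd hw0
  have L1 : LD M d v0 κ (l0 (1, 0)) := by simpa [emb] using L0 (1, 0)
  have ex : ∀ X : E, ∃ l, LD M d X κ l := by
    intro X
    obtain ⟨v, w, a, b, hi, e1, e2⟩ := ex_plane hd hv v0 X
    obtain ⟨κ', l, -, L, -⟩ := h.planeE h0 hd hi
    have := (LD_uniq h h0 hd hv L1 (e1 ▸ L a)).1
    exact ⟨l b, this ▸ e2 ▸ L b⟩
  choose lam hlam using ex
  let a : E → ℝ := fun X => if X = 0 then 1 else 1 + lam X
  have key : ∀ v w : E, Ind v w → PD M d (range (emb 0 v w)) κ a := by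
    intro v w hi
    obtain ⟨κ', l, l0', L, P⟩ := h.planeE h0 hd hi
    have v0' : emb 0 v w (1, 0) ≠ 0 := fun e => by
      have := emb_inj 0 hi (e.trans (emb_zero v w).symm)
      simp at this
    have ek := (LD_uniq h h0 hd v0' (hlam _) (L (1, 0))).1
    rw [ek]
    refine P a fun u => ?_
    by_cases hu : emb 0 v w u = 0
    · have := emb_inj 0 hi (hu.trans (emb_zero v w).symm)
      simp [a, this, l0', emb_zero]
    · simp only [a, if_neg hu, (LD_uniq h h0 hd hu (hlam _) (L u)).2]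
  have two : ∀ x y : E, ∃ S : Set E, x ∈ S ∧ y ∈ S ∧ PD M d S κ a := fun x y => by
    obtain ⟨v, w, p, q, hi, e1, e2⟩ := ex_plane hd hv x y
    exact ⟨range (emb 0 v w), ⟨p, e1⟩, ⟨q, e2⟩, key v w hi⟩
  refine ⟨κ, a, (key _ _ hw0).1, fun x _ m => ?_, fun x _ m => ?_, fun e x _ m y _ m' => ?_,
    fun e x _ m y _ m' => ?_⟩
  · obtain ⟨S, s1, -, P⟩ := two x x
    exact P.2.1 x s1 m
  · obtain ⟨S, s1, -, P⟩ := two x x
    exact P.2.2.1 x s1 m
  · obtain ⟨S, s1, s2, P⟩ := two x y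
    exact P.2.2.2.1 e x s1 m y s2 m'
  · obtain ⟨S, s1, s2, P⟩ := two x y
    exact P.2.2.2.2 e x s1 m y s2 m'

theorem PM.shift (h : PM M d) (o : E) :
    PM {x | o + x ∈ M} (fun x y => d (o + x) (o + y)) where
  op := h.op.preimage (f := fun x => o + x) (by fun_prop)
  cv := by
    intro x hx z hz a b ha hb hab
    show o + (a • x + b • z) ∈ M
    have : o + (a • x + b • z) = a • (o + x) + b • (o + z) := by
      rw [smul_add, smul_add, add_add_add_comm, ← add_smul, hab, one_smul]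
    rw [this]
    exact h.cv hx hz ha hb hab
  refl := fun x hx => h.refl _ hx
  symm := fun x hx y hy => h.symm _ hx _ hy
  sep := fun x hx y hy e => add_left_cancel (h.sep _ hx _ hy e)
  tri := fun x hx y hy z hz => h.tri _ hx _ hy _ hz
  cont := by
    have hc : Continuous fun p : E × E => (o + p.1, o + p.2) := by fun_prop
    exact h.cont.comp hc.continuousOn fun p hp => hp
  seg := by
    intro x hx y hy z hz
    rw [h.seg _ hx _ hy _ hz, mem_segment_translate]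
  ray := by
    intro p hp u hu r hr
    obtain ⟨t, ht, h1, h2⟩ := h.ray _ hp _ hu r hr
    exact ⟨t, ht, by simpa [add_assoc] using h1, by simpa [add_assoc] using h2⟩
  pto := fun x hx y hy z hz _ hw => h.pto _ hx _ hy _ hz _ hw

end Pool.Agent.H.MP_594704_gt
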