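import Pool.Agent.H.MP_594704_gt.I

set_option autoImplicit false

namespace Pool.Agent.H.MP_594704_gt

open Set Filter Topology

variable {E : Type*} [NormedAddCommGroup E] [InnerProductSpace ℝ E] [FiniteDimensional ℝ E]
  {M : Set E} {d : E → E → ℝ}

theorem ex_iso (h : PM M d) (h0 : (0 : E) ∈ M) (hd : Dim2 E) {v0 : E} (hv : v0 ≠ 0) :
    ∃ A : E ≃ₗ[ℝ] E, ∀ X Y, inner ℝ (A X) (A Y) = BB d X Y := by
  let B : LinearMap.BilinForm ℝ E := LinearMap.mk₂ ℝ (BB d) (BB_add h h0 hd hv)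
    (fun c X Y => BB_smul h h0 hd hv c X Y)
    (fun X Y Z => by
      rw [BB_symm h h0 hd X, BB_add h h0 hd hv, BB_symm h h0 hd Y, BB_symm h h0 hd Z])
    (fun c X Y => by rw [BB_symm h h0 hd X, BB_smul h h0 hd hv, BB_symm h h0 hd Y, smul_eq_mul])
  have Bs : LinearMap.IsSymm B := ⟨fun X Y => BB_symm h h0 hd X Y⟩
  obtain ⟨b, hb⟩ := LinearMap.BilinForm.exists_orthogonal_basis Bs
  have bp : ∀ i, 0 < N d 0 (b i) := fun i => h.N_pos hd h0 (b.ne_zero i)
  let b' := b.unitsSMul fun i => Units.mk0 (N d 0 (b i))⁻¹ (inv_pos.2 (bp i)).ne'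
  have eb : ∀ i, b' i = (N d 0 (b i))⁻¹ • b i := fun i => by
    simp [b', Module.Basis.unitsSMul_apply, Units.smul_def]
  let o := stdOrthonormalBasis ℝ E
  let A : E ≃ₗ[ℝ] E := b'.equiv o.toBasis (Equiv.refl _)
  have eA : ∀ i, A (b' i) = o i := fun i => by simp [A]
  have : (innerₗ E).compl₁₂ A.toLinearMap A.toLinearMap = B := by
    refine LinearMap.ext_basis b' b' fun i j => ?_
    simp only [LinearMap.compl₁₂_apply, LinearEquiv.coe_coe, eA, innerₗ_apply_apply]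
    rw [eb, eb, map_smul, map_smul, LinearMap.smul_apply, orthonormal_iff_ite.1 o.orthonormal]
    by_cases hij : i = j
    · subst hij
      have : B (b i) (b i) = N d 0 (b i) ^ 2 := BB_self h h0 hd _
      have := bp i
      simp only [if_true, smul_eq_mul, *]
      field_simp
    · have : B (b i) (b j) = 0 := hb hij
      simp [hij, this]
  refine ⟨A, fun X Y => ?_⟩
  have := congrArg (fun f => f X Y) this
  change _ = B X Y
  simpa using this

noncomputable def HC (p q : E) : ℝ := 1 + 2 * ‖p - q‖ ^ 2 / ((1 - ‖p‖ ^ 2) * (1 - ‖q‖ ^ 2))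

theorem main0 (h : PM M d) (h0 : (0 : E) ∈ M) (hd : Dim2 E) {v0 : E} (hv : v0 ≠ 0) :
    (∃ φ : E → E, BijOn φ M univ ∧ ∀ x ∈ M, ∀ y ∈ M, dist (φ x) (φ y) = d x y) ∨
    (∃ k : ℝ, 0 < k ∧ ∃ φ : E → E, BijOn φ M (Metric.ball 0 1) ∧ ∀ x ∈ M, ∀ y ∈ M,
      d x y = (1 / √k) * Real.log (HC (φ x) (φ y) + √(HC (φ x) (φ y) ^ 2 - 1))) := by
  obtain ⟨κ, a, k0, p1, p2, p3, p4⟩ := h.global h0 hd hv
  obtain ⟨A, hA⟩ := ex_iso h h0 hd hv
  simp only [mem_univ, true_imp_iff] at p1 p2 p3 p4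
  rcases eq_or_lt_of_le k0 with e | e
  · left
    have iso : ∀ x ∈ M, ∀ y ∈ M, dist ((a x)⁻¹ • A x) ((a y)⁻¹ • A y) = d x y := by
      intro x hx y hy
      have q := p3 e x hx y hy
      have ax := p1 x hx
      have ay := p1 y hy
      rw [← hA, real_inner_self_eq_norm_sq] at q
      have q2 := (pow_left_inj₀ (mul_nonneg (h.nonneg hx hy) (mul_pos ax ay).le) (norm_nonneg _)
        two_ne_zero).1 q
      have e1 : (a y)⁻¹ • A y - (a x)⁻¹ • A x = (a x * a y)⁻¹ • A (a x • y - a y • x) := by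
        rw [map_sub, map_smul, map_smul, smul_sub, smul_smul, smul_smul]
        congr 2 <;> field_simp
      rw [dist_comm, dist_eq_norm, e1, norm_smul, ← q2, Real.norm_eq_abs,
        abs_of_pos (by positivity)]
      field_simp
    refine ⟨fun x => (a x)⁻¹ • A x, ⟨mapsTo_univ _ _, fun x hx y hy e => ?_, fun z _ => ?_⟩, iso⟩
    · refine h.sep x hx y hy ?_
      rw [← iso x hx y hy]
      exact dist_eq_zero.2 e
    · by_cases hz : z = 0
      · exact ⟨0, h0, by simp [hz]⟩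
      obtain ⟨t, t0, m, e⟩ := h.ray 0 h0 (A.symm z) (by simpa using hz) ‖z‖ (norm_pos_iff.2 hz)
      rw [zero_add] at m e
      refine ⟨_, m, ?_⟩
      rw [← iso _ h0 _ m] at e
      have ap := p1 _ m
      simp only [map_zero, smul_zero, map_smul, LinearEquiv.apply_symm_apply, smul_smul,
        dist_zero_left, norm_smul, Real.norm_eq_abs] at e ⊢
      rw [abs_of_pos (by positivity)] at e
      have : (a (t • A.symm z))⁻¹ * t = 1 :=
        mul_right_cancel₀ (norm_pos_iff.2 hz).ne' (by rw [e, one_mul])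
      rw [this, one_smul]
  · right
    have k1 : 0 < -κ := by linarith
    have sk : 0 < √(-κ) := Real.sqrt_pos.2 k1
    have sk2 : √(-κ) ^ 2 = -κ := Real.sq_sqrt k1.le
    let S : E → ℝ := fun x => √(a x * a x + κ * BB d x x)
    have S0 : ∀ x ∈ M, 0 < S x := fun x hx => Real.sqrt_pos.2 (p2 x hx)
    have S2 : ∀ x ∈ M, S x ^ 2 = a x * a x + κ * BB d x x := fun x hx => Real.sq_sqrt (p2 x hx).le
    let φ : E → E := fun x => (√(-κ) / (a x + S x)) • A x
    have ip : ∀ x ∈ M, ∀ y ∈ M, inner ℝ (φ x) (φ y) =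
        -κ * BB d x y / ((a x + S x) * (a y + S y)) := by
      intro x hx y hy
      have := add_pos (p1 x hx) (S0 x hx)
      have := add_pos (p1 y hy) (S0 y hy)
      simp only [φ, real_inner_smul_left, real_inner_smul_right, hA]
      rw [← sk2]
      simp only [Real.sqrt_sq sk.le]
      field_simp
    have nq : ∀ x ∈ M, ‖φ x‖ ^ 2 = (a x - S x) / (a x + S x) := by
      intro x hx
      have := add_pos (p1 x hx) (S0 x hx)
      rw [← real_inner_self_eq_norm_sq, ip x hx x hx,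
        show -κ * BB d x x = (a x - S x) * (a x + S x) by linear_combination S2 x hx]
      field_simp
    have n1 : ∀ x ∈ M, ‖φ x‖ < 1 := by
      intro x hx
      have := add_pos (p1 x hx) (S0 x hx)
      have q : ‖φ x‖ ^ 2 < 1 := by
        rw [nq x hx, div_lt_one this]; linarith [S0 x hx]
      nlinarith [norm_nonneg (φ x)]
    have iso : ∀ x ∈ M, ∀ y ∈ M,
        d x y = (1 / √(-κ)) * Real.log (HC (φ x) (φ y) + √(HC (φ x) (φ y) ^ 2 - 1)) := by
      intro x hx y hy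
      have q := p4 e x hx y hy
      have := add_pos (p1 x hx) (S0 x hx)
      have := add_pos (p1 y hy) (S0 y hy)
      have := S0 x hx
      have := S0 y hy
      have c : HC (φ x) (φ y) = (a x * a y + κ * BB d x y) / (S x * S y) := by
        rw [HC, norm_sub_sq_real, nq x hx, nq y hy, ip x hx y hy,
          show 1 - (a x - S x) / (a x + S x) = 2 * S x / (a x + S x) by field_simp; ring,
          show 1 - (a y - S y) / (a y + S y) = 2 * S y / (a y + S y) by field_simp; ring]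
        field_simp
        ring
      rw [Real.sqrt_mul (p2 x hx).le] at q
      rw [c, ← q]
      field_simp
    have rad : ∀ p : E, ‖p‖ < 1 → HC 0 p + √(HC 0 p ^ 2 - 1) = (1 + ‖p‖) / (1 - ‖p‖) := by
      intro p hp
      have a1 : 0 < 1 - ‖p‖ := by linarith
      have a2 : 0 < 1 + ‖p‖ := by linarith [norm_nonneg p]
      have e1 : HC 0 p = (1 + ‖p‖ ^ 2) / ((1 - ‖p‖) * (1 + ‖p‖)) := by
        rw [HC, zero_sub, norm_neg, norm_zero,
          show (1 - (0:ℝ) ^ 2) * (1 - ‖p‖ ^ 2) = (1 - ‖p‖) * (1 + ‖p‖) by ring]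
        field_simp
        ring
      have e2 : HC 0 p ^ 2 - 1 = (2 * ‖p‖ / ((1 - ‖p‖) * (1 + ‖p‖))) ^ 2 := by
        rw [e1]; field_simp; ring
      rw [e2, Real.sqrt_sq (by positivity), e1]
      field_simp
      ring
    refine ⟨-κ, k1, φ, ⟨fun x hx => by simpa using n1 x hx, fun x hx y hy e => ?_,
      fun z hz => ?_⟩, iso⟩
    · refine h.sep x hx y hy ?_
      rw [iso x hx y hy, e]
      simp [HC]
    · by_cases hz0 : z = 0
      · exact ⟨0, h0, by simp [hz0, φ]⟩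
      have z1 : ‖z‖ < 1 := by simpa using hz
      have z0 : 0 < ‖z‖ := norm_pos_iff.2 hz0
      have lp : 0 < Real.log ((1 + ‖z‖) / (1 - ‖z‖)) :=
        Real.log_pos (by rw [one_lt_div (by linarith)]; linarith)
      obtain ⟨t, t0, m, e⟩ := h.ray 0 h0 (A.symm z) (by simpa using hz0)
        (1 / √(-κ) * Real.log ((1 + ‖z‖) / (1 - ‖z‖))) (by positivity)
      rw [zero_add] at m e
      refine ⟨_, m, ?_⟩
      have f0 : φ 0 = 0 := by simp [φ]
      have w1 := n1 _ m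
      have w0 := norm_nonneg (φ (t • A.symm z))
      rw [iso _ h0 _ m, f0, rad _ w1] at e
      have q1 : 0 < (1 + ‖φ (t • A.symm z)‖) / (1 - ‖φ (t • A.symm z)‖) :=
        div_pos (by linarith) (by linarith)
      have q2 : 0 < (1 + ‖z‖) / (1 - ‖z‖) := div_pos (by linarith) (by linarith)
      have e2 := Real.log_injOn_pos q1 q2 (mul_left_cancel₀ (by positivity) e)
      rw [div_eq_div_iff (by linarith) (by linarith)] at e2
      have e3 : ‖φ (t • A.symm z)‖ = ‖z‖ := by linarith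
      have ap := add_pos (p1 _ m) (S0 _ m)
      simp only [φ, map_smul, LinearEquiv.apply_symm_apply, smul_smul, norm_smul,
        Real.norm_eq_abs] at e3 ⊢
      rw [abs_of_pos (by positivity)] at e3
      rw [mul_right_cancel₀ z0.ne' (e3.trans (one_mul _).symm), one_smul]

theorem main1 (h : PM M d) (hne : M.Nonempty) (hd : Dim2 E) {v0 : E} (hv : v0 ≠ 0) :
    (∃ φ : E → E, BijOn φ M univ ∧ ∀ x ∈ M, ∀ y ∈ M, dist (φ x) (φ y) = d x y) ∨
    (∃ k : ℝ, 0 < k ∧ ∃ φ : E → E, BijOn φ M (Metric.ball 0 1) ∧ ∀ x ∈ M, ∀ y ∈ M,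
      d x y = (1 / √k) * Real.log (HC (φ x) (φ y) + √(HC (φ x) (φ y) ^ 2 - 1))) := by
  obtain ⟨o, ho⟩ := hne
  have m : ∀ x ∈ M, x - o ∈ {x | o + x ∈ M} := fun x hx => by simpa using hx
  have bij : BijOn (fun x => x - o) M {x | o + x ∈ M} :=
    ⟨m, fun x _ y _ e => sub_left_injective e, fun z hz => ⟨o + z, hz, by simp⟩⟩
  rcases main0 (h.shift o) (by simpa using ho) hd hv with ⟨φ, b, e⟩ | ⟨k, k0, φ, b, e⟩
  · exact Or.inl ⟨fun x => φ (x - o), b.comp bij, fun x hx y hy => by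
      simpa using e _ (m x hx) _ (m y hy)⟩
  · refine Or.inr ⟨k, k0, fun x => φ (x - o), b.comp bij, fun x hx y hy => ?_⟩
    have := e _ (m x hx) _ (m y hy)
    simp only [add_sub_cancel] at this
    exact this

omit [FiniteDimensional ℝ E] in
theorem mkPM (hop : IsOpen M) (hcv : Convex ℝ M) (h1 : ∀ x ∈ M, d x x = 0)
    (h2 : ∀ x ∈ M, ∀ y ∈ M, d x y = d y x) (h3 : ∀ x ∈ M, ∀ y ∈ M, d x y = 0 → x = y)
    (h4 : ∀ x ∈ M, ∀ y ∈ M, ∀ z ∈ M, d x z ≤ d x y + d y z)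
    (h5 : ∀ x ∈ M, ∀ V : Set E, (V ∈ nhds x ↔ ∃ r : ℝ, 0 < r ∧ ∀ y ∈ M, d x y < r → y ∈ V))
    (h6 : ∀ x ∈ M, ∀ y ∈ M, ∀ z ∈ M, (d x y + d y z = d x z ↔ y ∈ segment ℝ x z))
    (h7 : ∀ p ∈ M, ∀ v : E, v ≠ 0 → ∃ f : ℝ → E, (∀ s t : ℝ, d (f s) (f t) = |s - t|) ∧
      Set.range f = {x | x ∈ M ∧ ∃ t : ℝ, x = p + t • v})
    (h8 : ∀ x ∈ M, ∀ y ∈ M, ∀ z ∈ M, ∀ w ∈ M, d x z * d y w ≤ d x y * d z w + d y z * d w x) :
    PM M d := by
  refine ⟨hop, hcv, h1, h2, h3, h4, ?_, h6, ?_, h8⟩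
  · rintro ⟨x, y⟩ ⟨hx, hy⟩
    have ev : ∀ x ∈ M, ∀ ε : ℝ, 0 < ε → ∀ᶠ z in 𝓝 x, d x z < ε := fun x hx ε hε =>
      (h5 x hx {z | d x z < ε}).2 ⟨ε, hε, fun _ _ a => a⟩
    refine Metric.tendsto_nhds.2 fun ε hε => ?_
    have e1 : ∀ᶠ p : E × E in 𝓝 (x, y), d x p.1 < ε / 2 :=
      (continuous_fst.tendsto (x, y)).eventually (ev x hx _ (by linarith))
    have e2 : ∀ᶠ p : E × E in 𝓝 (x, y), d y p.2 < ε / 2 :=
      (continuous_snd.tendsto (x, y)).eventually (ev y hy _ (by linarith))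
    filter_upwards [nhdsWithin_le_nhds e1, nhdsWithin_le_nhds e2, self_mem_nhdsWithin]
      with p a1 a2 a3
    obtain ⟨m1, m2⟩ := a3
    have t1 := h4 _ m1 _ hx _ m2
    have t2 := h4 _ hx _ hy _ m2
    have t3 := h4 _ hx _ m1 _ hy
    have t4 := h4 _ m1 _ m2 _ hy
    rw [h2 _ m1 _ hx] at t1
    rw [h2 _ m2 _ hy] at t4
    rw [Real.dist_eq, abs_lt]
    constructor <;> linarith
  · intro p hp v hv r hr
    obtain ⟨f, hf, hr'⟩ := h7 p hp v hv
    obtain ⟨s, hs⟩ : p ∈ range f := by rw [hr']; exact ⟨hp, 0, by simp⟩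
    obtain ⟨m1, t1, e1⟩ : f (s - r) ∈ {x | x ∈ M ∧ ∃ t : ℝ, x = p + t • v} := hr' ▸ ⟨_, rfl⟩
    obtain ⟨m2, t2, e2⟩ : f (s + r) ∈ {x | x ∈ M ∧ ∃ t : ℝ, x = p + t • v} := hr' ▸ ⟨_, rfl⟩
    have d1 : d p (f (s - r)) = r := by rw [← hs, hf]; simp [abs_of_pos hr]
    have d2 : d p (f (s + r)) = r := by rw [← hs, hf]; simp [abs_of_pos hr]
    have d3 : d (f (s - r)) (f (s + r)) = r + r := by
      rw [hf, show s - r - (s + r) = -(r + r) by ring, abs_neg, abs_of_pos (by linarith)]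
    obtain ⟨α, β, α0, β0, ab, e⟩ := (h6 _ m1 _ hp _ m2).1 (by rw [h2 _ m1 _ hp, d1, d2, d3])
    have z : α * t1 + β * t2 = 0 := by
      have : (α * t1 + β * t2) • v = 0 := by
        rw [e1, e2, smul_add, smul_add, add_add_add_comm, ← add_smul, ab, one_smul, smul_smul,
          smul_smul, ← add_smul] at e
        simpa using e
      exact (smul_eq_zero.1 this).resolve_right hv
    have n1 : t1 ≠ 0 := by
      rintro rfl
      rw [e1, zero_smul, add_zero, h1 p hp] at d1; linarith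
    have n2 : t2 ≠ 0 := by
      rintro rfl
      rw [e2, zero_smul, add_zero, h1 p hp] at d2; linarith
    rcases n1.lt_or_gt with a1 | a1
    · rcases n2.lt_or_gt with a2 | a2
      · exfalso
        have b1 := mul_nonneg α0 (neg_nonneg.2 a1.le)
        have b2 := mul_nonneg β0 (neg_nonneg.2 a2.le)
        have c1 : α = 0 := (mul_eq_zero.1 (show α * t1 = 0 by linarith)).resolve_right n1
        have c2 : β = 0 := (mul_eq_zero.1 (show β * t2 = 0 by linarith)).resolve_right n2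
        linarith
      · exact ⟨t2, a2, e2 ▸ m2, e2 ▸ d2⟩
    · exact ⟨t1, a1, e1 ▸ m1, e1 ▸ d1⟩

omit [FiniteDimensional ℝ E] in
theorem dim2_of (h2 : 2 ≤ Module.finrank ℝ E) : Dim2 E := by
  intro v hv
  obtain ⟨w, hw⟩ := exists_linearIndependent_pair_of_one_lt_finrank (R := ℝ) (by omega) hv
  exact ⟨w, LinearIndependent.pair_iff.1 hw⟩

theorem circle_not {X : Type*} {d : X → X → ℝ} {L : ℝ} (hL : 0 < L) (f : AddCircle L → X)
    (hf : ∀ a b, d (f a) (f b) = dist a b)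
    (hp : ∀ x y z w, d x z * d y w ≤ d x y * d z w + d y z * d w x) : False := by
  have := hp (f ((0:ℝ) : AddCircle L)) (f ((L / 4 : ℝ) : AddCircle L))
    (f ((L / 2 : ℝ) : AddCircle L)) (f ((-(L / 4) : ℝ) : AddCircle L))
  have n : ∀ a b c : ℝ, |a - b| = c → c ≤ L / 2 →
      dist ((a : ℝ) : AddCircle L) ((b : ℝ) : AddCircle L) = c := by
    intro a b c e l
    rw [dist_eq_norm, ← AddCircle.coe_sub, ← e]
    exact (AddCircle.norm_coe_eq_abs_iff L hL.ne').2 (by rw [e, abs_of_pos hL]; exact l)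
  have e : ((-(L / 4) : ℝ) : AddCircle L) = ((3 * L / 4 : ℝ) : AddCircle L) := by
    rw [← AddCircle.coe_add_period L (-(L / 4))]
    congr 1; ring
  simp only [hf] at this
  rw [n 0 (L / 2) (L / 2) (by rw [abs_sub_comm, abs_of_pos] <;> linarith) le_rfl,
    n (L / 4) (-(L / 4)) (L / 2) (by rw [abs_of_pos] <;> linarith) le_rfl,
    n 0 (L / 4) (L / 4) (by rw [abs_sub_comm, abs_of_pos] <;> linarith) (by linarith),
    n (L / 4) (L / 2) (L / 4) (by rw [abs_sub_comm, abs_of_pos] <;> linarith) (by linarith),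
    n (-(L / 4)) 0 (L / 4) (by rw [abs_sub_comm, abs_of_pos] <;> linarith) (by linarith), e,
    n (L / 2) (3 * L / 4) (L / 4) (by rw [abs_sub_comm, abs_of_pos] <;> linarith)
      (by linarith)] at this
  nlinarith

end Pool.Agent.H.MP_594704_gt
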